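import Mathlib

/-! # SSA, chunk A1 (S/M): the norm is (X - 1)^(p - 1) modulo p -/

open Polynomial

namespace SSA

/-- Chunk A1 (S/M), ONLY MATHLIB. PROOF. Both sides differ by a polynomial which is divisible by p: map to ZMod p (Polynomial.map (Int.castRingHom (ZMod p))), an integral domain of characteristic p: (X - 1) * sum X^i = X^p - 1
(mul_geom_sum / geom_sum_mul) = (X - 1)^p (sub_pow_expChar or sub_pow_char, one_pow) = (X - 1) * (X - 1)^(p-1), cancel X - 1 (X_sub_C_ne_zero 1). A polynomial over ℤ with image 0 modulo p has all coefficients divisible by p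
(ZMod.intCast_zmod_eq_zero_iff_dvd, coeff_map) so it is C p * U (Polynomial.C_dvd_iff_dvd_coeff). -/
theorem a1 {p : ℕ} (hp : p.Prime) :
    ∃ U : ℤ[X], ∑ i ∈ Finset.range p, (X : ℤ[X]) ^ i = (X - 1) ^ (p - 1) + (p : ℤ[X]) * U := by
  haveI : Fact p.Prime := ⟨hp⟩
  have h1 : (Polynomial.map (Int.castRingHom (ZMod p))
      (∑ i ∈ Finset.range p, (X : ℤ[X]) ^ i - (X - 1) ^ (p - 1))) = 0 := by
    rw [Polynomial.map_sub, Polynomial.map_pow, Polynomial.map_sub, Polynomial.map_X, Polynomial.map_one,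
      Polynomial.map_sum]
    have h2 : ∑ i ∈ Finset.range p, Polynomial.map (Int.castRingHom (ZMod p)) ((X : ℤ[X]) ^ i) =
        ∑ i ∈ Finset.range p, (X : (ZMod p)[X]) ^ i := by
      refine Finset.sum_congr rfl fun i _ => ?_
      rw [Polynomial.map_pow, Polynomial.map_X]
    rw [h2, sub_eq_zero]
    have hX : (X - 1 : (ZMod p)[X]) ≠ 0 := by
      have := X_sub_C_ne_zero (1 : ZMod p)
      rwa [C_1] at this
    apply mul_right_cancel₀ hX
    rw [geom_sum_mul, ← pow_succ, Nat.sub_add_cancel hp.one_lt.le]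
    rw [sub_pow_char, one_pow]
  have h3 : (C (p : ℤ)) ∣ (∑ i ∈ Finset.range p, (X : ℤ[X]) ^ i - (X - 1) ^ (p - 1)) := by
    rw [Polynomial.C_dvd_iff_dvd_coeff]
    intro i
    have h4 := congrArg (fun q => q.coeff i) h1
    simp only [coeff_map, coeff_zero, eq_intCast] at h4
    exact (ZMod.intCast_zmod_eq_zero_iff_dvd _ _).1 h4
  obtain ⟨U, hU⟩ := h3
  refine ⟨U, ?_⟩
  have h5 : (C (p : ℤ) : ℤ[X]) = (p : ℤ[X]) := by
    simp
  rw [h5] at hU
  rw [← hU]
  ring

end SSA
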