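import Mathlib

/-! # SSA: Selmer groups at an inert prime p in extensions with break 1 above p: definitions (no sorry)

An abelian group G with a nonarchimedean size n (values 0 and the powers of ρ) and an automorphism σ of order p which behaves like an element of a ramification group
with break 1. -/

namespace SSA

/-- A nonarchimedean size with an automorphism of order p of break 1. -/
structure Sz {G : Type} [AddCommGroup G] (p e : ℕ) (ρ : ℝ) (n : G → ℝ) (σ : AddMonoid.End G) : Prop where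
  prime : p.Prime
  three : 3 ≤ p
  rho0 : 0 < ρ
  rho1 : ρ < 1
  le_e : p ≤ e
  zero : ∀ P, n P = 0 ↔ P = 0
  neg : ∀ P, n (-P) = n P
  add : ∀ P Q, n (P + Q) ≤ max (n P) (n Q)
  lev : ∀ P, P ≠ 0 → ∃ i : ℕ, 1 ≤ i ∧ n P = ρ ^ i
  sp : σ ^ p = 1
  d1 : ∀ P, n (σ P - P) ≤ ρ * n P
  d2 : ∀ (P : G) (i : ℕ), n P = ρ ^ i → ¬ p ∣ i → n (σ P - P) = ρ ^ (i + 1)
  d3 : ∀ (P : G) (j : ℕ), ¬ p ∣ j → n P = ρ ^ (j + 1) → ∃ Q, n (P - (σ Q - Q)) < ρ ^ (j + 1)
  mul : ∀ P, n (p • P) ≤ max (ρ ^ e * n P) (n P ^ (p ^ 2))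
  tor : ∀ P, n P ≤ ρ ^ e → p • P = 0 → P = 0
  div : ∀ P, n P ≤ ρ ^ (2 * e) → ∃ Q, n Q ≤ ρ ^ e ∧ p • Q = P

/-- The norm (trace) operator. -/
def Nr {G : Type} [AddCommGroup G] (p : ℕ) (σ : AddMonoid.End G) : AddMonoid.End G := ∑ k ∈ Finset.range p, σ ^ k

end SSA
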