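import Mathlib
import Pool.Agent.Lib.SSA.AD
import Pool.Agent.Lib.SSA.A1

/-! # SSA, chunk A2 (M): the level of the norm -/

open Polynomial

namespace SSA

variable {G : Type} [AddCommGroup G] {p e : ℕ} {ρ : ℝ} {n : G → ℝ} {σ : AddMonoid.End G}

/-- Chunk A2 (S). Elementary rules: n ≥ 0 (0 or a power of ρ: zero, lev), n (P - Q) ≤ max, and if n P < n Q then n (P + Q) = n Q and n (Q - P) = n Q (add for Q = (P + Q) - P, neg). -/
theorem a2_el (h : Sz p e ρ n σ) : (∀ P, 0 ≤ n P) ∧ (∀ P Q, n (P - Q) ≤ max (n P) (n Q)) ∧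
    (∀ P Q, n P < n Q → n (P + Q) = n Q ∧ n (Q - P) = n Q) := by
  have h0 : ∀ P, 0 ≤ n P := by
    intro P
    by_cases hP : P = 0
    · rw [(h.zero P).2 hP]
    · obtain ⟨i, -, hi⟩ := h.lev P hP
      rw [hi]
      exact pow_nonneg h.rho0.le i
  have h1 : ∀ P Q, n (P - Q) ≤ max (n P) (n Q) := by
    intro P Q
    have e := h.add P (-Q)
    rw [h.neg, ← sub_eq_add_neg] at e
    exact e
  have h2 : ∀ P Q, n P < n Q → n (P + Q) = n Q := by
    intro P Q hPQ
    refine le_antisymm ((h.add P Q).trans (max_le hPQ.le le_rfl)) ?_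
    have e := h1 (P + Q) P
    rw [add_sub_cancel_left] at e
    rcases le_max_iff.1 e with e | e
    · exact e
    · exact absurd e (not_le.2 hPQ)
  refine ⟨h0, h1, fun P Q hPQ => ⟨h2 P Q hPQ, ?_⟩⟩
  have e := h2 (-P) Q (by rw [h.neg]; exact hPQ)
  rw [neg_add_eq_sub] at e
  exact e

/-- Chunk A2 (S). σ does not increase the size: σ P = (σ P - P) + P, d1, ρ < 1. -/
theorem a2_s (h : Sz p e ρ n σ) (P : G) : n (σ P) ≤ n P := by
  have e : σ P = (σ P - P) + P := by rw [sub_add_cancel]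
  rw [e]
  refine (h.add _ _).trans (max_le ?_ le_rfl)
  exact (h.d1 P).trans (mul_le_of_le_one_left ((a2_el h).1 P) h.rho1.le)

theorem a2_int (h : Sz p e ρ n σ) (a : ℤ) (P : G) : n (a • P) ≤ n P := by
  have hnat : ∀ k : ℕ, n (k • P) ≤ n P := by
    intro k
    induction k with
    | zero =>
      rw [zero_smul, (h.zero 0).2 rfl]
      exact (a2_el h).1 P
    | succ k ih =>
      rw [succ_nsmul]
      exact (h.add _ _).trans (max_le ih le_rfl)
  rcases Int.eq_nat_or_neg a with ⟨k, rfl | rfl⟩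
  · rw [natCast_zsmul]
    exact hnat k
  · rw [neg_smul, h.neg, natCast_zsmul]
    exact hnat k

/-- Chunk A2 (S/M). Polynomials in σ do not increase the size. Polynomial.induction_on or as a finite sum (aeval_eq_sum_range): n (σ^k P) ≤ n P by induction (a2_s, pow_succ, AddMonoid.End multiplication is composition), n (a • P) ≤ n P for integers a
(naturals by induction with add, neg), a2_el. -/
theorem a2_poly (h : Sz p e ρ n σ) (U : ℤ[X]) (P : G) : n ((aeval σ U) P) ≤ n P := by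
  have key : ∀ U : ℤ[X], ∀ P, n ((aeval σ U) P) ≤ n P := by
    intro U
    induction U using Polynomial.induction_on with
    | C a =>
      intro P
      rw [aeval_C, eq_intCast, AddMonoid.End.intCast_apply]
      exact a2_int h a P
    | add f g hf hg =>
      intro P
      rw [map_add]
      exact (h.add _ _).trans (max_le (hf P) (hg P))
    | monomial k a ih =>
      intro P
      rw [pow_succ, ← mul_assoc, map_mul, aeval_X]
      exact (ih (σ P)).trans (a2_s h P)
  exact key U P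

/-- Chunk A2 (S). The powers of δ = σ - 1 on a P of level i = 1 modulo p: induction over k with d2: i + k is not divisible by p for k + 1 ≤ p - 1. (pow_succ' and AddMonoid.End.mul_apply; (σ - 1) Q = σ Q - Q by rfl or AddMonoidHom.sub_apply.) -/
theorem a2_delta (h : Sz p e ρ n σ) {P : G} {i : ℕ} (hP : n P = ρ ^ i) (hi : i % p = 1) (k : ℕ) (hk : k ≤ p - 1) :
    n (((σ - 1) ^ k) P) = ρ ^ (i + k) := by
  induction k with
  | zero =>
    rw [pow_zero, AddMonoid.End.one_apply, add_zero]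
    exact hP
  | succ k ih =>
    have ih' := ih (by omega)
    have e : ((σ - 1) ^ (k + 1)) P = σ (((σ - 1) ^ k) P) - ((σ - 1) ^ k) P := by
      rw [pow_succ']
      rfl
    rw [e, h.d2 _ (i + k) ih' ?_]
    · rfl
    · intro hd
      have hp3 := h.three
      have h1 : (i + k) % p = 0 := Nat.mod_eq_zero_of_dvd hd
      rw [Nat.add_mod, hi, Nat.mod_eq_of_lt (by omega : k < p), Nat.mod_eq_of_lt (by omega : 1 + k < p)] at h1
      omega

/-- Chunk A2 (M). THE LEVEL OF THE NORM. PROOF. a1: U. aeval σ of the identity (a ring homomorphism ℤ[X] → AddMonoid.End G): Nr p σ = (σ - 1)^(p-1) + p * aeval σ U, so Nr P = δ^(p-1) P + p • Q with Q = aeval σ U P, n Q ≤ n P = ρ^i (a2_poly). h.mul: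
n (p • Q) ≤ max (ρ^e ρ^i) ((ρ^i)^(p^2)) < ρ^(i + p - 1): e + i ≥ i + p > i + (p - 1) and i p^2 > i + p - 1 (i ≥ 1 because i % p = 1); a2_delta for k = p - 1; a2_el. -/
theorem a2 (h : Sz p e ρ n σ) {P : G} {i : ℕ} (hP : n P = ρ ^ i) (hi : i % p = 1) : n (Nr p σ P) = ρ ^ (i + (p - 1)) := by
  obtain ⟨U, hU⟩ := a1 h.prime
  have e1 : Nr p σ = (σ - 1) ^ (p - 1) + (p : AddMonoid.End G) * aeval σ U := by
    have e2 := congrArg (aeval σ) hU
    rw [map_sum, map_add, map_mul, map_pow, map_sub, map_one, aeval_X, map_natCast] at e2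
    unfold Nr
    rw [← e2]
    refine Finset.sum_congr rfl fun k _ => ?_
    rw [map_pow, aeval_X]
  have e3 : Nr p σ P = p • ((aeval σ U) P) + ((σ - 1) ^ (p - 1)) P := by
    rw [e1, add_comm]
    rfl
  have e4 := a2_delta h hP hi (p - 1) le_rfl
  rw [e3, ((a2_el h).2.2 _ _ ?_).1, e4]
  rw [e4]
  have hp3 := h.three
  have hi1 : 1 ≤ i := by
    by_contra hcon
    have : i = 0 := by omega
    rw [this, Nat.zero_mod] at hi
    omega
  have hQ : n ((aeval σ U) P) ≤ ρ ^ i := (a2_poly h U P).trans hP.le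
  have hQ0 := (a2_el h).1 ((aeval σ U) P)
  refine (h.mul _).trans_lt (max_lt ?_ ?_)
  · calc ρ ^ e * n ((aeval σ U) P) ≤ ρ ^ e * ρ ^ i := mul_le_mul_of_nonneg_left hQ (pow_nonneg h.rho0.le e)
      _ = ρ ^ (e + i) := (pow_add _ _ _).symm
      _ < ρ ^ (i + (p - 1)) := pow_lt_pow_right_of_lt_one₀ h.rho0 h.rho1 (by have := h.le_e; omega)
  · calc n ((aeval σ U) P) ^ (p ^ 2) ≤ (ρ ^ i) ^ (p ^ 2) := pow_le_pow_left₀ hQ0 hQ _
      _ = ρ ^ (i * p ^ 2) := (pow_mul _ _ _).symm
      _ < ρ ^ (i + (p - 1)) := by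
        refine pow_lt_pow_right_of_lt_one₀ h.rho0 h.rho1 ?_
        have h6 : p + 1 ≤ p ^ 2 := by nlinarith
        have h7 : i * (p + 1) ≤ i * p ^ 2 := Nat.mul_le_mul_left i h6
        have h8 : p ≤ i * p := Nat.le_mul_of_pos_left p hi1
        have h9 : i * (p + 1) = i * p + i := by ring
        have h5 : i + p ≤ i * p ^ 2 := by omega
        omega

end SSA
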