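import Mathlib
import Pool.Agent.Lib.SSA.A2

/-! # SSA, chunk A3 (M): elements of norm zero are in the image of σ - 1 -/

open Polynomial

namespace SSA

variable {G : Type} [AddCommGroup G] {p e : ℕ} {ρ : ℝ} {n : G → ℝ} {σ : AddMonoid.End G}

/-- Chunk A3 (S). The norm kills the image of σ - 1: Nr (σ Q - Q) = σ^p Q - Q = 0 (telescoping: Finset.sum_range_sub or geom_sum_mul in the ring AddMonoid.End G applied to Q; h.sp). -/
theorem a3_nr (h : Sz p e ρ n σ) (Q : G) : Nr p σ (σ Q - Q) = 0 := by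
  have h1 : ∀ Q : G, Nr p σ Q = ∑ k ∈ Finset.range p, (σ ^ k) Q := by
    intro Q
    unfold Nr
    exact AddMonoidHom.finsetSum_apply _ _ _
  have h2 : ∀ k : ℕ, (σ ^ k) (σ Q - Q) = (σ ^ (k + 1)) Q - (σ ^ k) Q := by
    intro k
    rw [map_sub, pow_succ]
    rfl
  rw [h1, Finset.sum_congr rfl fun k _ => h2 k, Finset.sum_range_sub (fun k => (σ ^ k) Q), h.sp, pow_zero]
  exact sub_self _

/-- Chunk A3 (M). Approximation. PROOF. Induction over m ≥ 1. m = 1: Q = 0 (n P ≤ ρ: P = 0 or lev). Step: R = P - (σ Q - Q), n R ≤ ρ^m, Nr R = 0 (map_sub, a3_nr). If n R < ρ^m then n R ≤ ρ^(m+1) (zero or lev: ρ^i < ρ^m gives i ≥ m + 1): same Q.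
If n R = ρ^m: if m % p = 1 then a2 gives n (Nr R) = ρ^(m + p - 1) ≠ 0 = n 0: contradiction. Otherwise p does not divide m - 1 (m ≥ 2 because 1 % p = 1), d3 with j = m - 1 gives Q' with n (R - (σ Q' - Q')) < ρ^m; take Q + Q' (map_add). -/
theorem a3_approx (h : Sz p e ρ n σ) {P : G} (hP : Nr p σ P = 0) (m : ℕ) (hm : 1 ≤ m) : ∃ Q, n (P - (σ Q - Q)) ≤ ρ ^ m := by
  induction m, hm using Nat.le_induction with
  | base =>
    refine ⟨0, ?_⟩
    rw [map_zero, sub_zero, sub_zero, pow_one]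
    by_cases hP0 : P = 0
    · rw [(h.zero P).2 hP0]
      exact h.rho0.le
    · obtain ⟨i, hi, hi'⟩ := h.lev P hP0
      rw [hi']
      calc ρ ^ i ≤ ρ ^ 1 := pow_le_pow_of_le_one h.rho0.le h.rho1.le hi
        _ = ρ := pow_one ρ
  | succ m hm ih =>
    obtain ⟨Q, hQ⟩ := ih
    set R := P - (σ Q - Q) with hR
    have hNR : Nr p σ R = 0 := by
      rw [hR, map_sub, hP, a3_nr h, sub_zero]
    by_cases hR0 : R = 0
    · refine ⟨Q, ?_⟩
      rw [← hR, hR0, (h.zero 0).2 rfl]
      exact pow_nonneg h.rho0.le _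
    obtain ⟨i, hi, hi'⟩ := h.lev R hR0
    by_cases him : m + 1 ≤ i
    · refine ⟨Q, ?_⟩
      rw [← hR, hi']
      exact pow_le_pow_of_le_one h.rho0.le h.rho1.le him
    have hmi : m ≤ i := by
      by_contra hlt
      have h1 : ρ ^ m < ρ ^ i := pow_lt_pow_right_of_lt_one₀ h.rho0 h.rho1 (by omega)
      rw [hi'] at hQ
      exact absurd hQ (not_le.2 h1)
    have hie : i = m := by omega
    subst hie
    have hp3 := h.three
    by_cases hmod : i % p = 1
    · have h1 := a2 h hi' hmod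
      rw [hNR, (h.zero 0).2 rfl] at h1
      exact absurd h1.symm (pow_pos h.rho0 _).ne'
    · have hi2 : 2 ≤ i := by
        by_contra hlt
        have h1 : i = 1 := by omega
        rw [h1, Nat.mod_eq_of_lt (by omega)] at hmod
        exact hmod rfl
      obtain ⟨j, rfl⟩ : ∃ j, i = j + 1 := ⟨i - 1, by omega⟩
      have hj : ¬ p ∣ j := by
        intro hd
        apply hmod
        obtain ⟨c, rfl⟩ := hd
        rw [Nat.mul_add_mod, Nat.mod_eq_of_lt (by omega)]
      obtain ⟨Q', hQ'⟩ := h.d3 R j hj hi'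
      refine ⟨Q + Q', ?_⟩
      have e1 : P - (σ (Q + Q') - (Q + Q')) = R - (σ Q' - Q') := by
        rw [hR, map_add]
        abel
      rw [e1]
      by_cases h0 : R - (σ Q' - Q') = 0
      · rw [h0, (h.zero 0).2 rfl]
        exact pow_nonneg h.rho0.le _
      · obtain ⟨l, hl, hl'⟩ := h.lev _ h0
        rw [hl'] at hQ' ⊢
        have h2 : j + 1 < l := by
          by_contra hlt
          have h3 : ρ ^ (j + 1) ≤ ρ ^ l := pow_le_pow_of_le_one h.rho0.le h.rho1.le (by omega)
          exact absurd hQ' (not_lt.2 h3)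
        exact pow_le_pow_of_le_one h.rho0.le h.rho1.le h2

/-- Chunk A3 (M). THE THEOREM. PROOF. a3_approx for m = 2 e: R = P - (σ Q - Q), n R ≤ ρ^(2e), Nr R = 0. h.div: R = p • R', n R' ≤ ρ^e. Nr R' is killed by p (map_nsmul) and n (Nr R') ≤ n R' ≤ ρ^e (a2_poly for the polynomial sum X^i, or a2_s and add): Nr R' = 0 by h.tor.
So R = p • R' - Nr R' = sum_(k<p) (R' - σ^k R') = σ T - T with T = - sum_(k < p) sum_(l < k) σ^l R' (σ^k R' - R' = σ T_k - T_k, T_k = sum_(l<k) σ^l R': telescoping, as in a3_nr). P = σ (Q + T) - (Q + T). -/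
theorem a3 (h : Sz p e ρ n σ) {P : G} (hP : Nr p σ P = 0) : ∃ Q, P = σ Q - Q := by
  have he : 1 ≤ e := by
    have := h.le_e
    have := h.three
    omega
  obtain ⟨Q, hQ⟩ := a3_approx h hP (2 * e) (by omega)
  set R := P - (σ Q - Q) with hR
  have hNR : Nr p σ R = 0 := by
    rw [hR, map_sub, hP, a3_nr h, sub_zero]
  obtain ⟨R', hR', hpR⟩ := h.div R hQ
  have hNapp : ∀ Q : G, Nr p σ Q = ∑ k ∈ Finset.range p, (σ ^ k) Q := by
    intro Q
    unfold Nr
    exact AddMonoidHom.finsetSum_apply _ _ _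
  have hpow : ∀ (k : ℕ) (Q : G), n ((σ ^ k) Q) ≤ n Q := by
    intro k
    induction k with
    | zero => intro Q; exact le_rfl
    | succ k ih =>
      intro Q
      have h1 : (σ ^ (k + 1)) Q = (σ ^ k) (σ Q) := by
        rw [pow_succ]
        rfl
      rw [h1]
      exact (ih _).trans (a2_s h Q)
  have hsum : ∀ s : Finset ℕ, n (∑ k ∈ s, (σ ^ k) R') ≤ n R' := by
    intro s
    induction s using Finset.induction_on with
    | empty =>
      rw [Finset.sum_empty, (h.zero 0).2 rfl]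
      exact (a2_el h).1 R'
    | insert k s hk ih =>
      rw [Finset.sum_insert hk]
      exact (h.add _ _).trans (max_le (hpow k R') ih)
  have hN' : Nr p σ R' = 0 := by
    refine h.tor _ ?_ ?_
    · rw [hNapp]
      exact (hsum _).trans hR'
    · rw [← map_nsmul, hpR, hNR]
  -- R = σ T - T
  have htel : ∀ k : ℕ, σ (∑ l ∈ Finset.range k, (σ ^ l) R') - ∑ l ∈ Finset.range k, (σ ^ l) R' = (σ ^ k) R' - R' := by
    intro k
    have h2 : ∀ l : ℕ, σ ((σ ^ l) R') = (σ ^ (l + 1)) R' := by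
      intro l
      rw [pow_succ']
      rfl
    rw [map_sum, Finset.sum_congr rfl fun l _ => h2 l, ← Finset.sum_sub_distrib,
      Finset.sum_range_sub (fun l => (σ ^ l) R'), pow_zero]
    rfl
  set T : G := -∑ k ∈ Finset.range p, ∑ l ∈ Finset.range k, (σ ^ l) R' with hT
  have hRT : R = σ T - T := by
    have h3 : σ T - T = -∑ k ∈ Finset.range p, ((σ ^ k) R' - R') := by
      rw [hT, map_neg, map_sum]
      rw [← Finset.sum_congr rfl fun k _ => htel k, Finset.sum_sub_distrib]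
      abel
    rw [h3, Finset.sum_sub_distrib, ← hNapp, hN', Finset.sum_const, Finset.card_range, hpR]
    abel
  refine ⟨Q + T, ?_⟩
  have h4 : P = R + (σ Q - Q) := by
    rw [hR]
    abel
  rw [h4, hRT, map_add]
  abel

end SSA
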