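import Mathlib
import Pool.Agent.Lib.SSA.AD
import Pool.Agent.Lib.H16S.QD
import Pool.Agent.Lib.H16S.N1

/-! # SSA: the local situation: definitions (no sorry)

V is a valuation ring of Ω above the inert prime p, i : Ω → C an embedding into an ultrametric field inducing V (H16S.Ctx). J is a subgroup of the decomposition group (the
inertia group of a number field K) and σ an element of the inertia group which induces an automorphism of order p with break 1 on the field fixed by J. -/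

open NumberField IsDedekindDomain WeierstrassCurve

namespace SSA

attribute [local instance] H16S.nfOC H16S.ultOC

open H55P (IQ Pt ac Inert Dec Nm)
open H35P (WAB Ker tt)
open H55K
open H16S

/-- σ induces on the field of the elements fixed by J an automorphism of order p with break 1; w is a uniformizer of this field, e its absolute ramification index. -/
structure Br {F Ω C : Type} [Field F] [Field Ω] [Algebra F Ω] [NormedField C] (p e : ℕ) (V : ValuationSubring Ω) (i : Ω →+* C)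
    (J : Subgroup (Ω ≃ₐ[F] Ω)) (σ : Ω ≃ₐ[F] Ω) (w : Ω) : Prop where
  dec : ∀ s ∈ J, Dec V s
  inert : Inert V σ
  nrm : ∀ s ∈ J, σ⁻¹ * s * σ ∈ J
  sp : σ ^ p ∈ J
  fw : ∀ s ∈ J, s w = w
  w0 : w ≠ 0
  w1 : ‖i w‖ < 1
  val : ∀ x : Ω, x ≠ 0 → (∀ s ∈ J, s x = x) → ∃ k : ℤ, ‖i x‖ = ‖i w‖ ^ k
  ep : ‖i (p : Ω)‖ = ‖i w‖ ^ e
  br1 : ∀ x : Ω, (∀ s ∈ J, s x = x) → ‖i x‖ ≤ 1 → ‖i (σ x - x)‖ ≤ ‖i w‖ ^ 2
  br2 : ‖i (σ w - w)‖ = ‖i w‖ ^ 2

variable {F : Type} [Field F] [NumberField F] [IQ F] {A B : F} {Ω : Type} [Field Ω] [DecidableEq Ω]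
  [Algebra F Ω] {V : ValuationSubring Ω} {C : Type} [NormedField C]

/-- The points of the kernel of reduction fixed by J. -/
def PJ (hG : GV A B V) (J : Subgroup (Ω ≃ₐ[F] Ω)) : AddSubgroup (kerG hG) where
  carrier := {P | ∀ s ∈ J, ac (WAB A B) s P.1 = P.1}
  zero_mem' := fun s _ => map_zero _
  add_mem' := fun {P Q} hP hQ s h1 => by
    show ac (WAB A B) s (P.1 + Q.1) = P.1 + Q.1
    rw [map_add, hP s h1, hQ s h1]
  neg_mem' := fun {P} hP s h1 => by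
    show ac (WAB A B) s (-P.1) = -P.1
    rw [map_neg, hP s h1]

theorem mem_PJ (hG : GV A B V) (J : Subgroup (Ω ≃ₐ[F] Ω)) (P : kerG hG) : P ∈ PJ hG J ↔ ∀ s ∈ J, ac (WAB A B) s P.1 = P.1 := Iff.rfl

/-- The action of σ. -/
noncomputable def sJ (hG : GV A B V) {J : Subgroup (Ω ≃ₐ[F] Ω)} {σ : Ω ≃ₐ[F] Ω} (hσ : Dec V σ) (hn : ∀ s ∈ J, σ⁻¹ * s * σ ∈ J) :
    AddMonoid.End (PJ hG J) :=
  { toFun := fun P => ⟨gG hG hσ P.1, fun s hs => by
      have h1 := P.2 _ (hn s hs)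
      have h2 : ac (WAB A B) (σ * (σ⁻¹ * s * σ)) P.1.1 = ac (WAB A B) σ (ac (WAB A B) (σ⁻¹ * s * σ) P.1.1) :=
        congrArg (fun f : AddMonoid.End (Pt (WAB A B) Ω) => f P.1.1) ((H55P.acR (WAB A B)).map_mul σ (σ⁻¹ * s * σ))
      have h3 : ac (WAB A B) (s * σ) P.1.1 = ac (WAB A B) s (ac (WAB A B) σ P.1.1) :=
        congrArg (fun f : AddMonoid.End (Pt (WAB A B) Ω) => f P.1.1) ((H55P.acR (WAB A B)).map_mul s σ)
      have h4 : σ * (σ⁻¹ * s * σ) = s * σ := by group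
      rw [h4, h3, h1] at h2
      exact h2⟩
    map_zero' := Subtype.ext (map_zero (gG hG hσ))
    map_add' := fun P Q => Subtype.ext (map_add (gG hG hσ) P.1 Q.1) }

theorem sJ_val (hG : GV A B V) {J : Subgroup (Ω ≃ₐ[F] Ω)} {σ : Ω ≃ₐ[F] Ω} (hσ : Dec V σ) (hn : ∀ s ∈ J, σ⁻¹ * s * σ ∈ J) (P : PJ hG J) :
    (sJ hG hσ hn P).1 = gG hG hσ P.1 := rfl

/-- The size. -/
noncomputable def nJ (i : Ω →+* C) (hG : GV A B V) (J : Subgroup (Ω ≃ₐ[F] Ω)) : PJ hG J → ℝ := fun P => ‖tG i hG P.1‖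

end SSA
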