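import Mathlib
import Pool.Agent.Lib.SSA.BD

/-! # SSA, chunk B1 (M): break 1: elements -/

open NumberField IsDedekindDomain WeierstrassCurve

namespace SSA

attribute [local instance] H16S.nfOC H16S.ultOC

open H55P (IQ Pt ac Inert Dec Nm)
open H16S

variable {F : Type} [Field F] [NumberField F] {p e : ℕ} {Ω C : Type} [Field Ω] [Algebra F Ω] [NormedField C] [IsUltrametricDist C]
  [Algebra.IsAlgebraic F Ω] {V : ValuationSubring Ω} {i : Ω →+* C} {J : Subgroup (Ω ≃ₐ[F] Ω)} {σ : Ω ≃ₐ[F] Ω} {w : Ω}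

omit [NumberField F] [IsUltrametricDist C] [Algebra.IsAlgebraic F Ω] in
/-- Chunk B1 (S). s (σ x) = σ ((σ⁻¹ s σ) x) = σ x (b.nrm). -/
theorem b1_fix (b : Br p e V i J σ w) {x : Ω} (hx : ∀ s ∈ J, s x = x) : ∀ s ∈ J, s (σ x) = σ x := by
  intro s hs
  have h1 := hx _ (b.nrm s hs)
  have h2 : σ ((σ⁻¹ * s * σ) x) = s (σ x) := by
    have h3 : σ * (σ⁻¹ * s * σ) = s * σ := by group
    exact congrArg (fun f : Ω ≃ₐ[F] Ω => f x) h3
  rw [h1] at h2
  exact h2.symm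

/-- Chunk B1 (S). σ is an isometry (H55P.inert_dec, H16S.n1_dec). -/
theorem b1_iso (h : Ctx F p V i) (b : Br p e V i J σ w) (x : Ω) : ‖i (σ x)‖ = ‖i x‖ := by
  classical
  exact n1_dec h (H55P.inert_dec V σ b.inert) x

theorem b1_r (b : Br p e V i J σ w) : 0 < ‖i w‖ := norm_pos_iff.2 ((map_ne_zero i).2 b.w0)

theorem b1_nat (h : Ctx F p V i) {k : ℕ} (hk : ¬ p ∣ k) : ‖(k : C)‖ = 1 := by
  have h1 : IsCoprime (k : ℤ) (p : ℤ) :=
    Nat.isCoprime_iff_coprime.2 ((h.pr.coprime_iff_not_dvd.2 hk).symm)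
  obtain ⟨x, y, hxy⟩ := h1
  have hp := (n1_p h).1
  rw [map_natCast] at hp
  by_contra hne
  have hlt : ‖(k : C)‖ < 1 := lt_of_le_of_ne (IsUltrametricDist.norm_natCast_le_one C k) hne
  have e2 : (x : C) * (k : C) + (y : C) * (p : C) = 1 := by
    exact_mod_cast congrArg (fun z : ℤ => (z : C)) hxy
  have h2 : ‖(1 : C)‖ < 1 := by
    rw [← e2]
    refine (IsUltrametricDist.norm_add_le_max _ _).trans_lt (max_lt ?_ ?_)
    · rw [norm_mul]
      exact (mul_le_of_le_one_left (norm_nonneg _) (IsUltrametricDist.norm_intCast_le_one C x)).trans_lt hlt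
    · rw [norm_mul]
      exact (mul_le_of_le_one_left (norm_nonneg _) (IsUltrametricDist.norm_intCast_le_one C y)).trans_lt hp
  rw [norm_one] at h2
  exact lt_irrefl _ h2

theorem b1_le (h : Ctx F p V i) (b : Br p e V i J σ w) (k : ℕ) :
    ‖i (σ w) ^ k - i w ^ k‖ ≤ ‖i w‖ ^ (k + 1) := by
  have ha : ‖i (σ w)‖ = ‖i w‖ := b1_iso h b w
  have hab : ‖i (σ w) - i w‖ = ‖i w‖ ^ 2 := by
    rw [← map_sub]
    exact b.br2
  rcases Nat.eq_zero_or_pos k with hk | hk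
  · rw [hk, pow_zero, pow_zero, sub_self, norm_zero]
    positivity
  · rw [← geom_sum₂_mul, norm_mul, hab]
    have h1 : ‖∑ j ∈ Finset.range k, i (σ w) ^ j * i w ^ (k - 1 - j)‖ ≤ ‖i w‖ ^ (k - 1) := by
      refine IsUltrametricDist.norm_sum_le_of_forall_le_of_nonneg (by positivity) fun j hj => ?_
      have hj' := Finset.mem_range.1 hj
      rw [norm_mul, norm_pow, norm_pow, ha, ← pow_add]
      apply le_of_eq
      congr 1
      omega
    calc _ ≤ ‖i w‖ ^ (k - 1) * ‖i w‖ ^ 2 := mul_le_mul_of_nonneg_right h1 (by positivity)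
      _ = ‖i w‖ ^ (k + 1) := by
        rw [← pow_add]
        congr 1
        omega

/-- Chunk B1 (M). The powers of the uniformizer. Put η = σ w / w - 1, ‖i η‖ = ‖i w‖ (b.br2 divided by w). σ (w^k) / w^k - 1 = (1 + η)^k - 1 = k η + η^2 (...) (induction over k: (1+η)^(k+1) - 1 = ((1+η)^k - 1)(1 + η) + η; claim ‖(1+η)^k - 1 - k η‖ ≤ ‖η‖^2): norm ≤ ‖w‖, and = ‖w‖ if
‖i k‖ = 1, that is if p does not divide k (k is an integer of F: H16S.n1_int with a = (k : 𝓞 F); or Bezout with ‖p‖ < 1, n1_p; IsUltrametricDist.norm_natCast_le_one). Multiply by w^k. -/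
theorem b1_pow (h : Ctx F p V i) (b : Br p e V i J σ w) (k : ℕ) :
    ‖i (σ (w ^ k) - w ^ k)‖ ≤ ‖i w‖ ^ (k + 1) ∧ (¬ p ∣ k → ‖i (σ (w ^ k) - w ^ k)‖ = ‖i w‖ ^ (k + 1)) := by
  have e1 : i (σ (w ^ k) - w ^ k) = i (σ w) ^ k - i w ^ k := by
    rw [map_sub, map_pow, map_pow, map_pow]
  rw [e1]
  refine ⟨b1_le h b k, fun hk => ?_⟩
  have hr := b1_r b
  have ha : ‖i (σ w)‖ = ‖i w‖ := b1_iso h b w
  have hab : ‖i (σ w) - i w‖ = ‖i w‖ ^ 2 := by
    rw [← map_sub]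
    exact b.br2
  have hk0 : 0 < k := by
    rcases Nat.eq_zero_or_pos k with h0 | h0
    · rw [h0] at hk
      exact absurd (dvd_zero p) hk
    · exact h0
  rw [← geom_sum₂_mul, norm_mul, hab]
  have h2 : ‖∑ j ∈ Finset.range k, (i (σ w) ^ j * i w ^ (k - 1 - j) - i w ^ (k - 1))‖ ≤ ‖i w‖ ^ k := by
    refine IsUltrametricDist.norm_sum_le_of_forall_le_of_nonneg (by positivity) fun j hj => ?_
    have hj' := Finset.mem_range.1 hj
    have e2 : i (σ w) ^ j * i w ^ (k - 1 - j) - i w ^ (k - 1) = (i (σ w) ^ j - i w ^ j) * i w ^ (k - 1 - j) := by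
      rw [sub_mul, ← pow_add]
      congr 3
      omega
    rw [e2, norm_mul, norm_pow]
    calc _ ≤ ‖i w‖ ^ (j + 1) * ‖i w‖ ^ (k - 1 - j) := mul_le_mul_of_nonneg_right (b1_le h b j) (by positivity)
      _ = ‖i w‖ ^ k := by
        rw [← pow_add]
        congr 1
        omega
  have h3 : ∑ j ∈ Finset.range k, i (σ w) ^ j * i w ^ (k - 1 - j) =
      ∑ j ∈ Finset.range k, (i (σ w) ^ j * i w ^ (k - 1 - j) - i w ^ (k - 1)) + (k : C) * i w ^ (k - 1) := by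
    rw [Finset.sum_sub_distrib, Finset.sum_const, Finset.card_range, nsmul_eq_mul]
    ring
  have h4 : ‖(k : C) * i w ^ (k - 1)‖ = ‖i w‖ ^ (k - 1) := by
    rw [norm_mul, b1_nat h hk, one_mul, norm_pow]
  have h5 : ‖i w‖ ^ k < ‖i w‖ ^ (k - 1) := pow_lt_pow_right_of_lt_one₀ hr b.w1 (by omega)
  have h6 : ‖∑ j ∈ Finset.range k, i (σ w) ^ j * i w ^ (k - 1 - j)‖ = ‖i w‖ ^ (k - 1) := by
    rw [h3, IsUltrametricDist.norm_add_eq_max_of_norm_ne_norm (by rw [h4]; exact (lt_of_le_of_lt h2 h5).ne), h4]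
    exact max_eq_right (h2.trans h5.le)
  rw [h6, ← pow_add]
  congr 1
  omega

/-- Chunk B1 (M). PROOF. x = 0: trivial. Otherwise (b.val) ‖i x‖ = ‖i w‖^k, k an integer, k ≥ 0 because ‖i x‖ ≤ 1 (0 < ‖i w‖ < 1), so a natural number. x = w^k u, u = x / w^k fixed by J (b.fw), ‖i u‖ = 1. σ x - x = σ(w^k) (σ u - u) + (σ (w^k) - w^k) u:
‖σ(w^k) (σ u - u)‖ ≤ ‖w‖^(k+2) (b1_iso, b.br1), ‖(σ (w^k) - w^k) u‖ ≤ ‖w‖^(k+1), with equality if p does not divide k (b1_pow); then the sum has the norm of the larger term (as in H16S.m6_eq or norm_add_eq_max_of_norm_ne_norm). -/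
theorem b1 (h : Ctx F p V i) (b : Br p e V i J σ w) {x : Ω} (hx : ∀ s ∈ J, s x = x) (h1 : ‖i x‖ ≤ 1) :
    ‖i (σ x - x)‖ ≤ ‖i w‖ * ‖i x‖ ∧ ∀ k : ℕ, ‖i x‖ = ‖i w‖ ^ k → ¬ p ∣ k → ‖i (σ x - x)‖ = ‖i w‖ ^ (k + 1) := by
  have hr := b1_r b
  by_cases hx0 : x = 0
  · subst hx0
    refine ⟨?_, fun k hk _ => ?_⟩
    · rw [map_zero, sub_zero, map_zero, norm_zero, mul_zero]
    · rw [map_zero, norm_zero] at hk
      exact absurd hk.symm (pow_pos hr k).ne'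
  obtain ⟨m, hm⟩ := b.val x hx0 hx
  have hm0 : 0 ≤ m := by
    by_contra hlt
    have h2 : 1 < ‖i w‖ ^ m := one_lt_zpow_of_neg₀ hr b.w1 (not_le.1 hlt)
    rw [← hm] at h2
    exact absurd h1 (not_le.2 h2)
  obtain ⟨k, rfl⟩ := Int.eq_ofNat_of_zero_le hm0
  rw [zpow_natCast] at hm
  have hwk : w ^ k ≠ 0 := pow_ne_zero k b.w0
  set u : Ω := x / w ^ k with hu
  have hfu : ∀ s ∈ J, s u = u := by
    intro s hs
    rw [hu, map_div₀, map_pow, hx s hs, b.fw s hs]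
  have hxu : x = w ^ k * u := by
    rw [hu]
    field_simp
  have hun : ‖i u‖ = 1 := by
    rw [hu, map_div₀, norm_div, map_pow, norm_pow, hm, div_self (pow_pos hr k).ne']
  have e1 : i (σ x - x) = i (σ (w ^ k)) * i (σ u - u) + i (σ (w ^ k) - w ^ k) * i u := by
    rw [← map_mul, ← map_mul, ← map_add]
    congr 1
    conv_lhs => rw [hxu]
    rw [map_mul]
    ring
  have h2 : ‖i (σ (w ^ k)) * i (σ u - u)‖ ≤ ‖i w‖ ^ (k + 2) := by
    rw [norm_mul, b1_iso h b, map_pow, norm_pow, pow_add]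
    exact mul_le_mul_of_nonneg_left (b.br1 u hfu hun.le) (by positivity)
  obtain ⟨h3, h4⟩ := b1_pow h b k
  have h5 : ‖i (σ (w ^ k) - w ^ k) * i u‖ = ‖i (σ (w ^ k) - w ^ k)‖ := by
    rw [norm_mul, hun, mul_one]
  have h6 : ‖i w‖ ^ (k + 2) < ‖i w‖ ^ (k + 1) := pow_lt_pow_right_of_lt_one₀ hr b.w1 (by omega)
  rw [e1]
  refine ⟨?_, fun k' hk' hpk => ?_⟩
  · refine (IsUltrametricDist.norm_add_le_max _ _).trans (max_le ?_ ?_)
    · refine (h2.trans h6.le).trans (le_of_eq ?_)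
      rw [hm, pow_succ']
    · rw [h5]
      refine h3.trans (le_of_eq ?_)
      rw [hm, pow_succ']
  · have hkk : k = k' := by
      rw [hm] at hk'
      exact pow_right_injective₀ hr b.w1.ne hk'
    subst hkk
    have h7 := h4 hpk
    rw [IsUltrametricDist.norm_add_eq_max_of_norm_ne_norm (by
      rw [h5, h7]
      exact (lt_of_le_of_lt h2 h6).ne), h5, h7]
    exact max_eq_right (h2.trans h6.le)

/-- Chunk B1 (S). p divides e: otherwise b1 for x = p, k = e: σ p - p = 0 has norm ‖w‖^(e+1) ≠ 0. e ≠ 0 because ‖i p‖ < 1. (‖i p‖ ≤ 1 and the elements of J fix the natural number p: map_natCast.) -/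
theorem b1_e (h : Ctx F p V i) (b : Br p e V i J σ w) : p ≤ e := by
  have hr := b1_r b
  have hp1 := (n1_p h).1
  have hfix : ∀ s ∈ J, s (p : Ω) = (p : Ω) := fun s _ => map_natCast s p
  have he : e ≠ 0 := by
    intro h0
    have h1 := b.ep
    rw [h0, pow_zero] at h1
    rw [h1] at hp1
    exact lt_irrefl _ hp1
  have hd : p ∣ e := by
    by_contra hnd
    have h2 := (b1 h b hfix hp1.le).2 e b.ep hnd
    rw [map_natCast σ p, sub_self, map_zero, norm_zero] at h2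
    exact absurd h2.symm (pow_pos hr _).ne'
  exact Nat.le_of_dvd (Nat.pos_of_ne_zero he) hd

/-- Chunk B1 (M). PROOF. k ≥ 1. D = σ (w^k) - w^k, ‖D‖ = ‖w‖^(k+1) (b1_pow), fixed by J (b1_fix). y = x / D, ‖y‖ = 1, fixed by J. z = w^k y. σ z - z = D y + σ(w^k) (σ y - y) = x + σ (w^k) (σ y - y), ‖σ (w^k) (σ y - y)‖ ≤ ‖w‖^(k+2) < ‖w‖^(k+1) (b.br1). -/
theorem b1_sol (h : Ctx F p V i) (b : Br p e V i J σ w) {x : Ω} (hx : ∀ s ∈ J, s x = x) {k : ℕ} (hk : ¬ p ∣ k)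
    (h1 : ‖i x‖ = ‖i w‖ ^ (k + 1)) :
    ∃ z : Ω, (∀ s ∈ J, s z = z) ∧ ‖i z‖ ≤ ‖i w‖ ^ k ∧ ‖i (x - (σ z - z))‖ < ‖i w‖ ^ (k + 1) := by
  have hr := b1_r b
  have hD := (b1_pow h b k).2 hk
  set D : Ω := σ (w ^ k) - w ^ k with hDd
  have hD0 : D ≠ 0 := by
    intro h0
    rw [h0, map_zero, norm_zero] at hD
    exact absurd hD.symm (pow_pos hr _).ne'
  have hwk : ∀ s ∈ J, s (w ^ k) = w ^ k := fun s hs => by rw [map_pow, b.fw s hs]
  have hfD : ∀ s ∈ J, s D = D := fun s hs => by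
    rw [hDd, map_sub, b1_fix b hwk s hs, hwk s hs]
  set y : Ω := x / D with hy
  have hfy : ∀ s ∈ J, s y = y := fun s hs => by
    rw [hy, map_div₀, hx s hs, hfD s hs]
  have hyn : ‖i y‖ = 1 := by
    rw [hy, map_div₀, norm_div, h1, hD, div_self (pow_pos hr _).ne']
  have hxy : x = D * y := by
    rw [hy]
    field_simp
  refine ⟨w ^ k * y, fun s hs => by rw [map_mul, hwk s hs, hfy s hs], ?_, ?_⟩
  · rw [map_mul, norm_mul, hyn, mul_one, map_pow, norm_pow]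
  · have e1 : x - (σ (w ^ k * y) - w ^ k * y) = -(σ (w ^ k) * (σ y - y)) := by
      conv_lhs => rw [hxy]
      rw [hDd, map_mul]
      ring
    rw [e1, map_neg, norm_neg, map_mul, norm_mul, b1_iso h b, map_pow, norm_pow]
    calc _ ≤ ‖i w‖ ^ k * ‖i w‖ ^ 2 := mul_le_mul_of_nonneg_left (b.br1 y hfy hyn.le) (by positivity)
      _ = ‖i w‖ ^ (k + 2) := (pow_add _ _ _).symm
      _ < ‖i w‖ ^ (k + 1) := pow_lt_pow_right_of_lt_one₀ hr b.w1 (by omega)

end SSA
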