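import Mathlib
import Pool.Agent.Lib.SSA.BD
import Pool.Agent.Lib.H16S.Q2
import Pool.Agent.Lib.H16S.Q6

/-! # SSA, chunk B2 (M): points with given coordinate, division by p -/

open NumberField IsDedekindDomain WeierstrassCurve

namespace SSA

attribute [local instance] H16S.nfOC H16S.ultOC

open H55P (IQ Pt ac Inert Dec Nm)
open H35P (WAB Ker tt)
open H55K
open H16S

variable {F : Type} [Field F] [NumberField F] [IQ F] {A B : F} {Om : ℂ} {Ω : Type} [Field Ω] [DecidableEq Ω]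
  [Algebra F Ω] [IsAlgClosure F Ω] {j : Ω →+* ℂ} {act : 𝓞 F →+* AddMonoid.End (Pt (WAB A B) Ω)} {V : ValuationSubring Ω}
  {C : Type} [NormedField C] [IsUltrametricDist C] {i : Ω →+* C} {p : ℕ}

/-- Chunk B2 (S/M). PROOF. Copy of H16S.q2_surj (z = 0: P = 0; H13X.local_ptt with N = F(z)). Fixed points: gG hG hs P has the coordinate s z = z (q1_act), q1_inj. -/
theorem b2_pt (h : Ctx F p V i) (hA : CMA F A B Om j act) (hG : GV A B V) {z : Ω} (hz : ‖i z‖ < 1) :
    ∃ P : kerG hG, tG i hG P = toC i z ∧ ∀ s : Ω ≃ₐ[F] Ω, Dec V s → s z = z → ac (WAB A B) s P.1 = P.1 := by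
  have hal : Algebra.IsAlgebraic F Ω := IsAlgClosure.isAlgebraic
  obtain ⟨P, hP⟩ : ∃ P : kerG hG, tG i hG P = toC i z := by
    by_cases ht0 : z = 0
    · refine ⟨0, ?_⟩
      rw [ht0]
      exact (q1_zero hG 0).2 rfl
    · have hfin : FiniteDimensional F (IntermediateField.adjoin F {z}) :=
        IntermediateField.adjoin.finiteDimensional (hal.isAlgebraic z).isIntegral
      have ht : V.valuation z < 1 := (n1_lt1 h z).2 hz
      obtain ⟨Q, B₀, -, -, -, hK, htt⟩ := H13X.local_ptt hA hG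
        (IntermediateField.mem_adjoin_simple_self F z) ht0 ht
      exact ⟨⟨Q, hK⟩, congrArg (toC i) htt⟩
  refine ⟨P, hP, fun s hs hsz => ?_⟩
  have h1 : tG i hG (gG hG hs P) = tG i hG P := by
    rw [q1_act, hP, gO_apply, hsz]
  exact congrArg Subtype.val (q1_inj h hG h1)

/-- Chunk B2 (M). Division by p in the kernel of reduction. PROOF. Copy of the proof of H16S.q6 (Lib/H16S/Q6.lean) word for word: the hypothesis that R is of level n is used only at the end, for the fixed points: here gG hG hs R = R is given for the single s. -/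
theorem b2_div [CompleteSpace C] (h : Ctx F p V i) (hA : CMA F A B Om j act) (hS : Sup act p) (hG : GV A B V) {R : kerG hG}
    (h1 : ‖tG i hG R‖ ≤ ‖(p : OC i)‖ ^ 2) :
    ∃ P : kerG hG, ‖tG i hG P‖ ≤ ‖(p : OC i)‖ ∧ p • P = R ∧ ∀ (s : Ω ≃ₐ[F] Ω) (hs : Dec V s), gG hG hs R = R → gG hG hs P = P := by
  classical
  obtain ⟨U, hU⟩ := exists_W (a := A) (b := B)
  obtain ⟨μ, hμ, hμ3⟩ := pt_map (A := A) (B := B) i
  obtain ⟨hp1, hp0⟩ := n1_p h
  have hip : i (p : Ω) = (p : C) := map_natCast i p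
  rw [hip] at hp1 hp0
  have hpn : ‖(p : OC i)‖ = ‖(p : C)‖ := by rw [q6_pn, hip]
  obtain ⟨hv1, hv2⟩ := f12_val hA h.pr h.five h.inert hS hG h.above hU i h.mem
  obtain ⟨hpt1, hpt2⟩ := f12_pt hG (p := p) hU i h.mem
  have hN : 4 ≤ p ^ 2 := by
    have := h.five
    nlinarith
  have hc : ‖i (tt R.1)‖ ≤ ‖(p : C)‖ ^ 2 := by
    rw [← hpn]
    exact h1
  obtain ⟨z, hz, hEz⟩ := q5 hp0 hp1 hN (fun z => ev (i.comp (algebraMap F Ω)) z (TW A B U p).1)
    (fun z hz => (hv1 z hz).2) hv2 hc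
  obtain ⟨PC, hPC, hPCz⟩ := hpt2 z (lt_of_le_of_lt hz hp1)
  have hI : H35P.IntW (WR (i (algebraMap F Ω A)) (i (algebraMap F Ω B))) (ball C) := by
    refine ⟨?_, ?_, ?_, ?_, ?_⟩
    · exact (ball C).zero_mem
    · exact (ball C).zero_mem
    · exact (ball C).zero_mem
    · exact (mem_ball _).2 ((h.mem _).1 hG.a)
    · exact (mem_ball _).2 ((h.mem _).1 hG.b)
  have h2 : (2 : C) ≠ 0 := by
    have h3 : (2 : Ω) ≠ 0 := by
      intro h4
      have h5 := hG.two
      rw [h4, map_zero] at h5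
      exact zero_ne_one h5
    have h6 : i (2 : Ω) = (2 : C) := map_ofNat i 2
    rw [← h6]
    exact (map_ne_zero i).2 h3
  have hkn : ∀ m : ℕ, Ker (ball C) (m • PC) := by
    intro m
    induction m with
    | zero =>
      rw [zero_nsmul]
      trivial
    | succ m ih =>
      rw [succ_nsmul]
      exact H35P.ker_add hI _ _ ih hPC
  have hμR : Ker (ball C) (μ R.1) := (ker_map i h.mem hμ (fun P => (hμ3 P).1) R.1).2 R.2
  have e1 : p • PC = μ R.1 := by
    refine q6_inj h2 hI (hkn p) hμR ?_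
    rw [hpt1 PC hPC, hPCz, (hμ3 R.1).2.2]
    exact hEz
  obtain ⟨Q, hQ⟩ := q4 h.pr hA hμ (fun P => ⟨(hμ3 P).1, (hμ3 P).2.1⟩) e1
  have hQk : Ker V Q := by
    rw [← ker_map i h.mem hμ (fun P => (hμ3 P).1) Q, hQ]
    exact hPC
  have hQz : i (tt Q) = z := by
    rw [← (hμ3 Q).2.2, hQ, hPCz]
  have hpQ : p • Q = R.1 := by
    apply hμ
    rw [map_nsmul, hQ, e1]
  let P : kerG hG := ⟨Q, hQk⟩
  have hPR : p • P = R := Subtype.ext hpQ
  have hPn : ‖tG i hG P‖ ≤ ‖(p : OC i)‖ := by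
    rw [hpn]
    show ‖i (tt Q)‖ ≤ _
    rw [hQz]
    exact hz
  refine ⟨P, hPn, hPR, fun s hs hfix => ?_⟩
  have : Algebra.IsAlgebraic F Ω := IsAlgClosure.isAlgebraic
  have hD0 : gG hG hs P - P = 0 := by
    refine q6_zero (C := C) (i := i) h hA hS hG ?_ ?_
    · rw [nsmul_sub, ← map_nsmul, hPR, sub_eq_zero]
      exact hfix
    · have hlt := q1_lt (i := i) h hG P
      have hlt' := q1_lt (i := i) h hG (gG hG hs P)
      have hsn : ‖tG i hG (gG hG hs P)‖ ≤ ‖(p : OC i)‖ := by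
        rw [q1_act]
        show ‖i (s (tt Q))‖ ≤ _
        rw [n1_dec h hs]
        exact hPn
      have hd : ‖tG i hG (gG hG hs P) - tG i hG P‖ ≤ ‖(p : OC i)‖ := by
        rw [sub_eq_add_neg]
        refine (IsUltrametricDist.norm_add_le_max _ _).trans (max_le hsn ?_)
        rw [norm_neg]
        exact hPn
      have h3 := q1_sub h hG (gG hG hs P) P (i := i)
      have h4 : tG i hG (gG hG hs P - P) = (tG i hG (gG hG hs P - P) -
          (tG i hG (gG hG hs P) - tG i hG P)) + (tG i hG (gG hG hs P) - tG i hG P) := by ring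
      rw [h4]
      refine (IsUltrametricDist.norm_add_le_max _ _).trans (max_le (h3.trans ?_) hd)
      calc ‖tG i hG (gG hG hs P) - tG i hG P‖ * max ‖tG i hG (gG hG hs P)‖ ‖tG i hG P‖ ^ 2
          ≤ ‖(p : OC i)‖ * 1 := by
            refine mul_le_mul hd ?_ (by positivity) (norm_nonneg _)
            exact pow_le_one₀ (le_max_of_le_left (norm_nonneg _)) (max_le hlt'.le hlt.le)
        _ = ‖(p : OC i)‖ := mul_one _
  exact sub_eq_zero.1 hD0

end SSA
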