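import Mathlib
import Pool.Agent.Lib.SSA.B1
import Pool.Agent.Lib.SSA.B2

/-! # SSA, chunk B3 (M): the points of the kernel of reduction fixed by J satisfy the axioms Sz -/

open NumberField IsDedekindDomain WeierstrassCurve

namespace SSA

attribute [local instance] H16S.nfOC H16S.ultOC

open H55P (IQ Pt ac Inert Dec Nm)
open H35P (WAB Ker tt)
open H55K
open H16S

variable {F : Type} [Field F] [NumberField F] [IQ F] {A B : F} {Om : ℂ} {Ω : Type} [Field Ω] [DecidableEq Ω]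
  [Algebra F Ω] [IsAlgClosure F Ω] {j : Ω →+* ℂ} {act : 𝓞 F →+* AddMonoid.End (Pt (WAB A B) Ω)} {V : ValuationSubring Ω}
  {C : Type} [NormedField C] [IsUltrametricDist C] {i : Ω →+* C} {p e : ℕ} {J : Subgroup (Ω ≃ₐ[F] Ω)} {σ : Ω ≃ₐ[F] Ω} {w : Ω}

private theorem b3_nsub {C : Type} [NormedField C] [IsUltrametricDist C] (x y : C) : ‖x - y‖ ≤ max ‖x‖ ‖y‖ := by
  rw [sub_eq_add_neg, ← norm_neg y]
  exact IsUltrametricDist.norm_add_le_max _ _

/-- Chunk B3 (S). The coordinate of a point fixed by J is fixed by J (tG i hG P = toC i (tt P.1) by rfl; tt (ac s P) = s (tt P): H55K.tt_ac). -/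
theorem b3_fix (hG : GV A B V) (P : PJ hG J) : ∀ s ∈ J, s (tt P.1.1) = tt P.1.1 := by
  intro s hs
  rw [← H55K.tt_ac, P.2 s hs]

/-- Chunk B3 (S/M). The coordinate of a difference has the size of the difference of the coordinates: q1_sub: the error is ≤ ‖difference‖ * (max)^2, which is < ‖difference‖ unless the difference is 0 (q1_lt). -/
theorem b3_sub (h : Ctx F p V i) (hG : GV A B V) (P Q : kerG hG) : ‖tG i hG (P - Q)‖ = ‖tG i hG P - tG i hG Q‖ := by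
  have h1 := q1_sub h hG P Q
  by_cases hu : tG i hG P - tG i hG Q = 0
  · rw [hu, norm_zero, zero_mul, sub_zero] at h1
    rw [hu, norm_zero]
    exact le_antisymm h1 (norm_nonneg _)
  · have h2 : ‖tG i hG (P - Q) - (tG i hG P - tG i hG Q)‖ < ‖tG i hG P - tG i hG Q‖ := by
      refine lt_of_le_of_lt h1 ?_
      refine mul_lt_of_lt_one_right (norm_pos_iff.2 hu) ?_
      exact pow_lt_one₀ (le_max_of_le_left (norm_nonneg _)) (max_lt (q1_lt h hG P) (q1_lt h hG Q)) two_ne_zero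
    have h3 := IsUltrametricDist.norm_add_eq_max_of_norm_ne_norm h2.ne
    rw [sub_add_cancel, max_eq_right h2.le] at h3
    exact h3

/-- Chunk B3 (S). b3_sub, q1_act. -/
theorem b3_delta (h : Ctx F p V i) (hG : GV A B V) {s : Ω ≃ₐ[F] Ω} (hs : Dec V s) (P : kerG hG) :
    ‖tG i hG (gG hG hs P - P)‖ = ‖i (s (tt P.1) - tt P.1)‖ := by
  rw [b3_sub h hG, q1_act]
  rfl

/-- Chunk B3 (M). The hypothesis d3. PROOF. x = tt P.1.1, ‖i x‖ = ‖i w‖^(k+1), fixed by J (b3_fix). b1_sol: z (‖i z‖ < 1 because k ≥ 1). b2_pt: Q with the coordinate z, fixed by J (b.dec). D = gG Q - Q: tG D - (σ z - z) has norm ≤ ‖σ z - z‖ * ‖z‖^2 (q1_sub, q1_act, b1_iso) < ‖w‖^(k+1)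
(‖σ z - z‖ ≤ ‖w‖^(k+1): it is x minus something smaller). So ‖tG P - tG D‖ < ‖w‖^(k+1), b3_sub. -/
theorem b3_sol (h : Ctx F p V i) (hA : CMA F A B Om j act) (hG : GV A B V) (b : Br p e V i J σ w) (P : PJ hG J) {k : ℕ} (hk : ¬ p ∣ k)
    (h1 : nJ i hG J P = ‖i w‖ ^ (k + 1)) :
    ∃ Q : PJ hG J, nJ i hG J (P - (sJ hG (H55P.inert_dec V σ b.inert) b.nrm Q - Q)) < ‖i w‖ ^ (k + 1) := by
  have hw0 : 0 < ‖i w‖ := norm_pos_iff.2 ((map_ne_zero i).2 b.w0)
  have h1' : ‖i (tt P.1.1)‖ = ‖i w‖ ^ (k + 1) := h1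
  obtain ⟨z, hz, hzk, hx⟩ := b1_sol h b (b3_fix hG P) hk h1'
  have hk0 : k ≠ 0 := fun h0 => hk (h0 ▸ dvd_zero p)
  have hz1 : ‖i z‖ < 1 := lt_of_le_of_lt hzk (pow_lt_one₀ (norm_nonneg _) b.w1 hk0)
  obtain ⟨Q, hQ, hfix⟩ := b2_pt h hA hG hz1
  refine ⟨⟨Q, fun s hs => hfix s (b.dec s hs) (hz s hs)⟩, ?_⟩
  show ‖tG i hG (P.1 - (gG hG (H55P.inert_dec V σ b.inert) Q - Q))‖ < ‖i w‖ ^ (k + 1)
  rw [b3_sub h hG]
  have hσ : tG i hG (gG hG (H55P.inert_dec V σ b.inert) Q) = toC i (σ z) := by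
    rw [q1_act, hQ, gO_apply]
  have h2 := q1_sub h hG (gG hG (H55P.inert_dec V σ b.inert) Q) Q
  rw [hσ, hQ, toC_norm, toC_norm, b1_iso h b, max_self, ← toC_sub, toC_norm] at h2
  have h3 : ‖i (σ z - z)‖ ≤ ‖i w‖ ^ (k + 1) := by
    have e1 : i (σ z - z) = i (tt P.1.1) - i (tt P.1.1 - (σ z - z)) := by
      rw [← map_sub, sub_sub_cancel]
    rw [e1]
    exact (b3_nsub _ _).trans (max_le h1'.le hx.le)
  have h4 : ‖tG i hG (gG hG (H55P.inert_dec V σ b.inert) Q - Q) - toC i (σ z - z)‖ < ‖i w‖ ^ (k + 1) := by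
    refine lt_of_le_of_lt h2 ?_
    refine lt_of_le_of_lt (mul_le_mul_of_nonneg_right h3 (sq_nonneg _)) ?_
    exact mul_lt_of_lt_one_right (pow_pos hw0 _) (pow_lt_one₀ (norm_nonneg _) hz1 two_ne_zero)
  have e2 : tG i hG P.1 - tG i hG (gG hG (H55P.inert_dec V σ b.inert) Q - Q)
      = toC i (tt P.1.1 - (σ z - z)) - (tG i hG (gG hG (H55P.inert_dec V σ b.inert) Q - Q) - toC i (σ z - z)) := by
    rw [toC_sub i (tt P.1.1)]
    show toC i (tt P.1.1) - _ = _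
    ring
  rw [e2]
  exact lt_of_le_of_lt (b3_nsub _ _) (max_lt hx h4)

/-- Chunk B3 (M). THE AXIOMS. PROOF. prime, three: h.pr, h.five. le_e: b1_e. zero: q1_zero. neg: q1_neg. add: q1_sub for P, -Q. lev: b.val for tt P.1.1 (k > 0 because ‖i t‖ < 1: q1_lt). sp: σ^p is in J (as endomorphisms: ext; (sJ ..)^k acts by ac (σ^k): induction, H55P.acR map_pow).
d1, d2: b3_delta and b1. d3: b3_sol. mul: q3: ‖t(pP)‖ ≤ max(‖p‖‖t‖, ‖t‖^(p²), ‖p‖‖t‖²) and ‖t‖ ≤ 1; ‖(p : OC i)‖ = ‖i p‖ (q6_pn) = ‖w‖^e. tor: q6_zero. div: b2_div ((‖w‖^e)^2 = ‖w‖^(2 e)); fixed by J. -/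
theorem b3 [CompleteSpace C] (h : Ctx F p V i) (hA : CMA F A B Om j act) (hS : Sup act p) (hG : GV A B V) (b : Br p e V i J σ w) :
    Sz p e ‖i w‖ (nJ i hG J) (sJ hG (H55P.inert_dec V σ b.inert) b.nrm) := by
  have hw0 : 0 < ‖i w‖ := norm_pos_iff.2 ((map_ne_zero i).2 b.w0)
  have hle : ∀ P : PJ hG J, ‖i (tt P.1.1)‖ ≤ 1 := fun P => (q1_lt h hG P.1).le
  have hpe : ‖(p : OC i)‖ = ‖i w‖ ^ e := by rw [q6_pn, b.ep]
  exact
  { prime := h.pr
    three := by have := h.five; omega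
    rho0 := hw0
    rho1 := b.w1
    le_e := b1_e h b
    zero := fun P => by
      show ‖tG i hG P.1‖ = 0 ↔ P = 0
      rw [norm_eq_zero, q1_zero]
      exact ⟨fun h0 => Subtype.ext h0, fun h0 => by rw [h0]; rfl⟩
    neg := fun P => by
      show ‖tG i hG (-P.1)‖ = ‖tG i hG P.1‖
      rw [q1_neg, norm_neg]
    add := fun P Q => by
      show ‖tG i hG (P.1 + Q.1)‖ ≤ max ‖tG i hG P.1‖ ‖tG i hG Q.1‖
      have h1 := b3_sub h hG P.1 (-Q.1)
      rw [sub_neg_eq_add, q1_neg, sub_neg_eq_add] at h1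
      rw [h1]
      exact IsUltrametricDist.norm_add_le_max _ _
    lev := fun P hP => by
      have h1 : tt P.1.1 ≠ 0 := fun h0 => hP (Subtype.ext ((q1_zero (i := i) hG P.1).1 h0))
      obtain ⟨k, hk⟩ := b.val _ h1 (b3_fix hG P)
      have h2 : ‖i (tt P.1.1)‖ < 1 := q1_lt h hG P.1
      have h3 : 0 < k := by
        by_contra h4
        have h5 : k ≤ 0 := not_lt.1 h4
        have h6 : (1 : ℝ) ≤ ‖i w‖ ^ k := one_le_zpow_of_nonpos₀ hw0 b.w1.le h5
        rw [hk] at h2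
        exact absurd h2 (not_lt.2 h6)
      refine ⟨k.toNat, by omega, ?_⟩
      show ‖i (tt P.1.1)‖ = _
      rw [hk, ← zpow_natCast, Int.toNat_of_nonneg h3.le]
    sp := by
      have h1 : ∀ (k : ℕ) (P : PJ hG J), (((sJ hG (H55P.inert_dec V σ b.inert) b.nrm) ^ k) P).1.1 = ac (WAB A B) (σ ^ k) P.1.1 := by
        intro k
        induction k with
        | zero =>
          intro P
          exact (congrArg (fun f : AddMonoid.End (Pt (WAB A B) Ω) => f P.1.1) ((H55P.acR (WAB A B)).map_one)).symm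
        | succ k ih =>
          intro P
          have h2 : ac (WAB A B) (σ ^ k * σ) P.1.1 = ac (WAB A B) (σ ^ k) (ac (WAB A B) σ P.1.1) :=
            congrArg (fun f : AddMonoid.End (Pt (WAB A B) Ω) => f P.1.1) ((H55P.acR (WAB A B)).map_mul (σ ^ k) σ)
          rw [pow_succ, pow_succ, h2]
          exact ih (sJ hG (H55P.inert_dec V σ b.inert) b.nrm P)
      exact AddMonoidHom.ext fun P => Subtype.ext (Subtype.ext ((h1 p P).trans (P.2 _ b.sp)))
    d1 := fun P => by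
      show ‖tG i hG (gG hG (H55P.inert_dec V σ b.inert) P.1 - P.1)‖ ≤ ‖i w‖ * ‖tG i hG P.1‖
      rw [b3_delta h hG]
      exact (b1 h b (b3_fix hG P) (hle P)).1
    d2 := fun P k h1 h2 => by
      show ‖tG i hG (gG hG (H55P.inert_dec V σ b.inert) P.1 - P.1)‖ = ‖i w‖ ^ (k + 1)
      rw [b3_delta h hG]
      exact (b1 h b (b3_fix hG P) (hle P)).2 k h1 h2
    d3 := fun P k hk h1 => b3_sol h hA hG b P hk h1
    mul := fun P => by
      show ‖tG i hG (p • P.1)‖ ≤ max (‖i w‖ ^ e * ‖tG i hG P.1‖) (‖tG i hG P.1‖ ^ (p ^ 2))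
      have h1 := q3 h hA hS hG P.1
      have e1 : tG i hG (p • P.1) = (tG i hG (p • P.1) - p * tG i hG P.1 + tG i hG P.1 ^ p ^ 2) + (p * tG i hG P.1 - tG i hG P.1 ^ p ^ 2) := by
        ring
      rw [e1]
      refine (IsUltrametricDist.norm_add_le_max _ _).trans (max_le ?_ ?_)
      · refine h1.trans (le_max_of_le_left ?_)
        rw [hpe, sq]
        exact mul_le_mul_of_nonneg_left (mul_le_of_le_one_left (norm_nonneg _) (q1_lt h hG P.1).le) (pow_nonneg hw0.le _)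
      · refine (b3_nsub _ _).trans (max_le_max ?_ ?_)
        · rw [norm_mul, hpe]
        · rw [norm_pow]
    tor := fun P h1 h2 => by
      have h3 : p • P.1 = 0 := congrArg Subtype.val h2
      exact Subtype.ext (q6_zero h hA hS hG h3 (by rw [hpe]; exact h1))
    div := fun P h1 => by
      have h2 : ‖tG i hG P.1‖ ≤ ‖(p : OC i)‖ ^ 2 := by
        rw [hpe, ← pow_mul, mul_comm e 2]
        exact h1
      obtain ⟨Q, hQ, hpQ, hfix⟩ := b2_div h hA hS hG h2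
      refine ⟨⟨Q, fun s hs => ?_⟩, ?_, Subtype.ext hpQ⟩
      · have h3 : gG hG (b.dec s hs) P.1 = P.1 := Subtype.ext (P.2 s hs)
        exact congrArg Subtype.val (hfix s (b.dec s hs) h3)
      · show ‖tG i hG Q‖ ≤ ‖i w‖ ^ e
        rw [← hpe]
        exact hQ }

end SSA
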