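import Mathlib
import Pool.Agent.Lib.SSA.BD
import Pool.Agent.Lib.H16S.N4

/-! # SSA, chunk B4 (S/M): in the supersingular case a point with p-multiple in the kernel of reduction is in the kernel of reduction -/

open NumberField IsDedekindDomain WeierstrassCurve

namespace SSA

attribute [local instance] H16S.nfOC H16S.ultOC

open H55P (IQ Pt ac Inert Dec Nm)
open H35P (WAB Ker tt)
open H55K
open H16S

variable {F : Type} [Field F] [NumberField F] [IQ F] {A B : F} {Om : ℂ} {Ω : Type} [Field Ω] [DecidableEq Ω]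
  [Algebra F Ω] [IsAlgClosure F Ω] {j : Ω →+* ℂ} {act : 𝓞 F →+* AddMonoid.End (Pt (WAB A B) Ω)} {V : ValuationSubring Ω}
  {C : Type} [NormedField C] [IsUltrametricDist C] {i : Ω →+* C} {p : ℕ}

/-- Chunk B4 (S/M). PROOF. H16S.n4_frob h 0 gives s in Dec V with V (s x - x^(p²)) < 1 on V. hS.fr V h.above s: Ker V (ac s X + p • X). Ker V (p • X), so Ker V (ac s X) (the kernel is a subgroup: kerG hG, or H55K.kadd, kneg: ac s X = (ac s X + p • X) - p • X).
X = 0: trivial; X = (x, y): Ker V means 1 < V x; ac s X = (s x, s y), 1 < V (s x) iff s x not in V iff x not in V (s in Dec V; see H55K.S.kr_dec and H16S.QD ker_ac: (ker_ac s hs).1 or .2 gives it directly). -/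
theorem b4 (h : Ctx F p V i) (hS : Sup act p) (hG : GV A B V) (X : Pt (WAB A B) Ω) (hX : Ker V (p • X)) : Ker V X := by
  obtain ⟨s, hs, -, hf⟩ := n4_frob (F := F) h 0
  have h1 := hS.fr V h.above s hf X
  have h2 := ksub hG h1 hX
  rw [add_sub_cancel_right] at h2
  exact (ker_ac s hs).1 h2

end SSA
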