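import Mathlib
import Pool.Agent.Lib.SSA.A3
import Pool.Agent.Lib.SSA.B3
import Pool.Agent.Lib.SSA.B4
import Pool.Agent.Lib.H55K.SKR

/-! # SSA, chunk B5 (M): the vanishing of the cohomology of a weakly ramified extension of degree p -/

open NumberField IsDedekindDomain WeierstrassCurve

namespace SSA

open H55P (IQ Pt ac Inert Dec Nm)
open H35P (WAB Ker tt)
open H55K
open H16S

variable {F : Type} [Field F] [NumberField F] [IQ F] {A B : F} {Om : ℂ} {Ω : Type} [Field Ω] [DecidableEq Ω]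
  [Algebra F Ω] [IsAlgClosure F Ω] {j : Ω →+* ℂ} {act : 𝓞 F →+* AddMonoid.End (Pt (WAB A B) Ω)} {V : ValuationSubring Ω}
  {C : Type} [NormedField C] [IsUltrametricDist C] {i : Ω →+* C} {p e : ℕ} {J : Subgroup (Ω ≃ₐ[F] Ω)} {σ : Ω ≃ₐ[F] Ω} {w : Ω}

theorem b5_ac (s t : Ω ≃ₐ[F] Ω) (P : Pt (WAB A B) Ω) : ac (WAB A B) (s * t) P = ac (WAB A B) s (ac (WAB A B) t P) :=
  congrArg (fun f : AddMonoid.End (Pt (WAB A B) Ω) => f P) ((H55P.acR (WAB A B)).map_mul s t)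

theorem b5_one (P : Pt (WAB A B) Ω) : ac (WAB A B) (1 : Ω ≃ₐ[F] Ω) P = P :=
  congrArg (fun f : AddMonoid.End (Pt (WAB A B) Ω) => f P) ((H55P.acR (F := F) (Ω := Ω) (WAB A B)).map_one)

theorem b5_pow (hG : GV A B V) (hσ : Dec V σ) (hn : ∀ s ∈ J, σ⁻¹ * s * σ ∈ J) (k : ℕ) (P : PJ hG J) :
    ((sJ hG hσ hn ^ k : AddMonoid.End (PJ hG J)) P).1.1 = ac (WAB A B) (σ ^ k) P.1.1 := by
  induction k with
  | zero =>
    rw [pow_zero, pow_zero, b5_one]
    rfl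
  | succ k ih =>
    rw [pow_succ', pow_succ', b5_ac, ← ih]
    rfl

theorem b5_sum (hG : GV A B V) {ι : Type} (s : Finset ι) (f : ι → PJ hG J) : (∑ k ∈ s, f k).1.1 = ∑ k ∈ s, (f k).1.1 := by
  have h1 := map_sum ((kerG hG).subtype.comp (PJ hG J).subtype) f s
  exact h1

/-- Chunk B5 (M). PROOF. σ^k is in the inertia group (H13X.lcb_mul or Subgroup.pow_mem in H55P.inS F V, mem_inS), so ac (σ^k) R - R is in the kernel of reduction (H55K.S.kr_inert). p • R = - sum_k (ac (σ^k) R - R) (the sum of the ac (σ^k) R is 0) is in the kernel, so R is (b4). R as an element P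
of PJ hG J; Nr p (sJ ..) P = 0 (the k-th power of sJ acts as ac (σ^k): induction; coordinates: Subtype.ext). a3 with b3: P = sJ Q - Q; take Q.1.1. -/
theorem b5 [CompleteSpace C] (h : Ctx F p V i) (hA : CMA F A B Om j act) (hS : Sup act p) (hG : GV A B V) (b : Br p e V i J σ w)
    {R : Pt (WAB A B) Ω} (hR : ∀ s ∈ J, ac (WAB A B) s R = R) (hN : ∑ k ∈ Finset.range p, ac (WAB A B) (σ ^ k) R = 0) :
    ∃ Q : Pt (WAB A B) Ω, (∀ s ∈ J, ac (WAB A B) s Q = Q) ∧ R = ac (WAB A B) σ Q - Q := by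
  have hin : ∀ k : ℕ, Inert V (σ ^ k) := fun k =>
    (H55P.inS F V).pow_mem ((H55P.mem_inS V σ).2 b.inert) k
  have h1 : ∀ k : ℕ, ac (WAB A B) (σ ^ k) R - R ∈ kerG hG := fun k => H55K.S.kr_inert hG _ (hin k) R
  have h2 : ∑ k ∈ Finset.range p, (ac (WAB A B) (σ ^ k) R - R) ∈ kerG hG :=
    AddSubgroup.sum_mem _ fun k _ => h1 k
  rw [Finset.sum_sub_distrib, hN, Finset.sum_const, Finset.card_range, zero_sub] at h2
  have h3 : p • R ∈ kerG hG := by
    have h4 := (kerG hG).neg_mem h2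
    rwa [neg_neg] at h4
  have h5 : Ker V R := b4 h hS hG R h3
  obtain ⟨P, hP⟩ : ∃ P : PJ hG J, P.1.1 = R := ⟨⟨⟨R, h5⟩, hR⟩, rfl⟩
  have h6 : Nr p (sJ hG (H55P.inert_dec V σ b.inert) b.nrm) P = 0 := by
    have h7 : Nr p (sJ hG (H55P.inert_dec V σ b.inert) b.nrm) P =
        ∑ k ∈ Finset.range p, (sJ hG (H55P.inert_dec V σ b.inert) b.nrm ^ k : AddMonoid.End (PJ hG J)) P := by
      unfold Nr
      exact AddMonoidHom.finset_sum_apply _ _ _
    rw [h7]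
    apply Subtype.ext
    apply Subtype.ext
    rw [b5_sum]
    simp only [b5_pow]
    rw [hP, hN]
    rfl
  obtain ⟨Q, hQ⟩ := a3 (b3 h hA hS hG b) h6
  refine ⟨Q.1.1, Q.2, ?_⟩
  have h8 := congrArg (fun P : PJ hG J => P.1.1) hQ
  beta_reduce at h8
  rw [hP] at h8
  exact h8

end SSA
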