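import Mathlib

/-! # SSA, chunk B6 (S/M), ONLY MATHLIB: extension of a coboundary over a cyclic quotient -/

namespace SSA

/-- Chunk B6 (S/M), ONLY MATHLIB. N ≥ K groups, N/K generated by σ (of order p), I a subgroup containing σ; c a cocycle on N which is the coboundary of P on K ⊓ I. PROOF. c' s = c s - (ρ s P - P): a cocycle on N (direct computation), 0 on J = K ⊓ I. R = c' σ.
(1) R is fixed by s in J: c' (s σ) = c' s + ρ s R = ρ s R and s σ = σ (σ⁻¹ s σ), σ⁻¹ s σ in K (hn) and in I: c' (s σ) = R + ρ σ 0 = R.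
(2) c' (σ^k) = sum_(l<k) ρ (σ^l) R (induction over k, σ^k in N), so the sum over l < p is c' (σ^p) = 0 because σ^p is in K and in I. H gives Q fixed by J with R = ρ σ Q - Q.
(3) c' (σ^k) = ρ (σ^k) Q - Q (induction). s in N and I: s = σ^k n (hg), n = σ^(-k) s in K and in I: c' s = c' (σ^k) + ρ (σ^k) (c' n) = ρ (σ^k) Q - Q = ρ (σ^k) (ρ n Q) - Q = ρ s Q - Q.
So P' = P + Q works. -/
theorem b6 {G M : Type} [Group G] [AddCommGroup M] (ρ : G →* AddMonoid.End M) {N K I : Subgroup G} {p : ℕ} {σ : G} (hK : K ≤ N)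
    (hσN : σ ∈ N) (hσI : σ ∈ I) (hσp : σ ^ p ∈ K) (hn : ∀ s ∈ K, σ⁻¹ * s * σ ∈ K) (hg : ∀ s ∈ N, ∃ (k : ℕ) (n : G), n ∈ K ∧ s = σ ^ k * n)
    (H : ∀ R : M, (∀ s ∈ K ⊓ I, ρ s R = R) → ∑ k ∈ Finset.range p, ρ (σ ^ k) R = 0 → ∃ Q : M, (∀ s ∈ K ⊓ I, ρ s Q = Q) ∧ R = ρ σ Q - Q)
    {c : G → M} (hc : ∀ s ∈ N, ∀ t ∈ N, c (s * t) = c s + ρ s (c t)) {P : M} (hP : ∀ s ∈ K, s ∈ I → c s = ρ s P - P) :
    ∃ P' : M, ∀ s ∈ N, s ∈ I → c s = ρ s P' - P' := by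
  have hmul : ∀ (s t : G) (x : M), ρ (s * t) x = ρ s (ρ t x) := fun s t x => by
    rw [map_mul]
    rfl
  have hone : ∀ x : M, ρ 1 x = x := fun x => by
    rw [map_one]
    rfl
  obtain ⟨c', hc'⟩ : ∃ c' : G → M, ∀ s, c' s = c s - (ρ s P - P) := ⟨fun s => c s - (ρ s P - P), fun _ => rfl⟩
  have hcoc : ∀ s ∈ N, ∀ t ∈ N, c' (s * t) = c' s + ρ s (c' t) := by
    intro s hs t ht
    rw [hc', hc', hc', hc s hs t ht, hmul, map_sub, map_sub]
    abel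
  have hJ : ∀ s ∈ K, s ∈ I → c' s = 0 := by
    intro s hs hs'
    rw [hc', hP s hs hs', sub_self]
  have h1 : ∀ s ∈ K ⊓ I, ρ s (c' σ) = c' σ := by
    intro s hs
    obtain ⟨hsK, hsI⟩ := Subgroup.mem_inf.1 hs
    have e1 := hcoc s (hK hsK) σ hσN
    rw [hJ s hsK hsI, zero_add] at e1
    have e2 : s * σ = σ * (σ⁻¹ * s * σ) := by group
    have e3 := hcoc σ hσN (σ⁻¹ * s * σ) (hK (hn s hsK))
    rw [hJ _ (hn s hsK) (I.mul_mem (I.mul_mem (I.inv_mem hσI) hsI) hσI), map_zero, add_zero, ← e2] at e3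
    rw [← e1, e3]
  have h2 : ∀ k : ℕ, c' (σ ^ k) = ∑ l ∈ Finset.range k, ρ (σ ^ l) (c' σ) := by
    intro k
    induction k with
    | zero =>
      rw [pow_zero, Finset.range_zero, Finset.sum_empty]
      exact hJ 1 K.one_mem I.one_mem
    | succ k ih =>
      rw [pow_succ, hcoc _ (N.pow_mem hσN k) _ hσN, ih, Finset.sum_range_succ]
  have h3 : ∑ k ∈ Finset.range p, ρ (σ ^ k) (c' σ) = 0 := by
    rw [← h2]
    exact hJ _ hσp (I.pow_mem hσI p)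
  obtain ⟨Q, hQ1, hQ2⟩ := H (c' σ) h1 h3
  have h4 : ∀ k : ℕ, c' (σ ^ k) = ρ (σ ^ k) Q - Q := by
    intro k
    induction k with
    | zero =>
      rw [pow_zero, hone, sub_self]
      exact hJ 1 K.one_mem I.one_mem
    | succ k ih =>
      rw [pow_succ, hcoc _ (N.pow_mem hσN k) _ hσN, ih, hmul, hQ2, map_sub]
      abel
  refine ⟨P + Q, fun s hs hsI => ?_⟩
  obtain ⟨k, n, hnK, e⟩ := hg s hs
  have hnI : n ∈ I := by
    have e1 : n = (σ ^ k)⁻¹ * s := by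
      rw [e]
      group
    rw [e1]
    exact I.mul_mem (I.inv_mem (I.pow_mem hσI k)) hsI
  have h5 : c' s = ρ s Q - Q := by
    rw [e, hcoc _ (N.pow_mem hσN k) _ (hK hnK), hJ n hnK hnI, map_zero, add_zero, h4, hmul,
      hQ1 n (Subgroup.mem_inf.2 ⟨hnK, hnI⟩)]
  have h6 := hc' s
  rw [h5] at h6
  rw [map_add]
  have h7 : c s = (ρ s Q - Q) + (ρ s P - P) := by
    rw [h6]
    abel
  rw [h7]
  abel

end SSA
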