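import Mathlib
import Pool.Agent.Lib.SSA.BD
import Pool.Agent.Lib.H13S.IN2

/-! # SSA, chunk L1 (M): Teichmueller representatives in the algebraic closure -/

open NumberField IsDedekindDomain WeierstrassCurve

namespace SSA

open H55P (IQ Pt ac Inert Dec Nm)
open H16S

variable {F : Type} [Field F] [NumberField F] {p : ℕ} {Ω C : Type} [Field Ω] [Algebra F Ω] [IsAlgClosure F Ω] [NormedField C] [IsUltrametricDist C]
  {V : ValuationSubring Ω} {i : Ω →+* C}

/-- Ultrametric inequality for differences. -/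
theorem l1_add_lt {C : Type} [NormedField C] [IsUltrametricDist C] {a b : C} {r : ℝ} (ha : ‖a‖ < r) (hb : ‖b‖ < r) : ‖a + b‖ < r :=
  lt_of_le_of_lt (IsUltrametricDist.norm_add_le_max a b) (max_lt ha hb)

theorem l1_add_le {C : Type} [NormedField C] [IsUltrametricDist C] {a b : C} {r : ℝ} (ha : ‖a‖ ≤ r) (hb : ‖b‖ ≤ r) : ‖a + b‖ ≤ r :=
  le_trans (IsUltrametricDist.norm_add_le_max a b) (max_le ha hb)

theorem l1_one {n : ℕ} {z : Ω} (hn : n ≠ 0) (hz : z ^ n = 1) : ‖i z‖ = 1 := by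
  have h1 : ‖i z‖ ^ n = 1 := by
    rw [← norm_pow, ← map_pow, hz, map_one, norm_one]
  exact (pow_eq_one_iff_of_nonneg (norm_nonneg _) hn).1 h1

/-- The order of the residue field is divisible by p. -/
theorem l1_card (K : Type) [Field K] [NumberField K] [Algebra K Ω] {p : ℕ} (hp : p.Prime) (V : ValuationSubring Ω) (hV : V.valuation (p : Ω) < 1) :
    ∃ m, 0 < m ∧ ¬ p ∣ m ∧ Nat.card (𝓞 K ⧸ (H13S.in2Q V).comap (algebraMap (𝓞 K) (𝓞 Ω))) = m + 1 := by
  set P : Ideal (𝓞 K) := (H13S.in2Q V).comap (algebraMap (𝓞 K) (𝓞 Ω)) with hP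
  have hQp : (H13S.in2Q V).IsPrime := H13S.in2Q_prime V
  have hPp : P.IsPrime := Ideal.IsPrime.comap _
  have hqP : (p : 𝓞 K) ∈ P := by
    rw [hP, Ideal.mem_comap, map_natCast, H13S.in2Q_lt]
    simpa using hV
  have hPb : P ≠ ⊥ := by
    intro h
    rw [h, Ideal.mem_bot] at hqP
    exact hp.ne_zero (by exact_mod_cast hqP)
  have hfin : Finite (𝓞 K ⧸ P) := Ideal.finiteQuotientOfFreeOfNeBot _ hPb
  have hnt : Nontrivial (𝓞 K ⧸ P) := Ideal.Quotient.nontrivial_iff.2 hPp.ne_top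
  have hfact : Fact p.Prime := ⟨hp⟩
  have h1 : addOrderOf (1 : 𝓞 K ⧸ P) = p := by
    refine addOrderOf_eq_prime ?_ one_ne_zero
    rw [nsmul_one]
    have h2 : ((p : ℕ) : 𝓞 K ⧸ P) = Ideal.Quotient.mk P (p : 𝓞 K) := (map_natCast _ _).symm
    rw [h2]
    exact Ideal.Quotient.eq_zero_iff_mem.2 hqP
  have h3 : p ∣ Nat.card (𝓞 K ⧸ P) := by
    rw [← h1]
    exact addOrderOf_dvd_natCard _
  have h4 : 1 < Nat.card (𝓞 K ⧸ P) := Finite.one_lt_card
  refine ⟨Nat.card (𝓞 K ⧸ P) - 1, by omega, ?_, by omega⟩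
  intro h5
  have h6 : p ∣ 1 := by
    have h7 := Nat.dvd_sub h3 h5
    have h8 : Nat.card (𝓞 K ⧸ P) - (Nat.card (𝓞 K ⧸ P) - 1) = 1 := by omega
    rwa [h8] at h7
  exact hp.one_lt.ne' (Nat.dvd_one.1 h6)

/-- Chunk L1 (M). The units of V are roots of unity of order prime to p modulo the maximal ideal. PROOF. K = F(x) = IntermediateField.adjoin F {x} (a number field: finite over F, NumberField.of_module_finite). H13S.residue_fixed K V (V ≠ ⊤ since V p < 1, h.above) for T = x (in V: h.mem) fixed by K.fixingSubgroup: a in 𝓞 K with V (x - a) < 1,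
so V a = 1. P = the ideal of the b in 𝓞 K with V b < 1: maximal with finite residue field (see the proof of residue_fixed for P) of characteristic p, q = number of elements = a power of p (≥ p), a^(q-1) - 1 in P (FiniteField.pow_card_sub_one_eq_one), so V (x^(q-1) - 1) < 1. n = q - 1, n > 0, p does not divide n.
X^n - 1 = product of the X - ζ over the n-th roots of unity in Ω (algebraically closed; X_pow_sub_one_eq_prod with a primitive root: IsPrimitiveRoot from HasEnoughRootsOfUnity or IsAlgClosed; or Polynomial.Splits and a root ζ with V (x - ζ) < 1 because the product of the V (x - ζ) is < 1). Norms: n1_lt1. -/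
theorem l1_unit (h : Ctx F p V i) {x : Ω} (hx : ‖i x‖ = 1) : ∃ (ζ : Ω) (n : ℕ), 0 < n ∧ ¬ p ∣ n ∧ ζ ^ n = 1 ∧ ‖i (x - ζ)‖ < 1 := by
  have hac : IsAlgClosed Ω := IsAlgClosure.isAlgClosed F
  have hal0 : Algebra.IsAlgebraic F Ω := IsAlgClosure.isAlgebraic
  have hint : IsIntegral F x := Algebra.IsIntegral.isIntegral x
  have hfd : FiniteDimensional F (IntermediateField.adjoin F {x}) :=
    IntermediateField.adjoin.finiteDimensional hint
  set K : IntermediateField F Ω := IntermediateField.adjoin F {x} with hK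
  have hNF : NumberField K := NumberField.of_module_finite F K
  have hal : Algebra.IsAlgebraic K Ω := Algebra.IsAlgebraic.tower_top (K := F) K
  have hcl : IsAlgClosure K Ω := ⟨inferInstance, hal⟩
  obtain ⟨s, -, hs2⟩ := H13S.in2_gen (K := K) p h.pr V h.above
  obtain ⟨m, hm0, hmp, hm⟩ := l1_card (Ω := Ω) K h.pr V h.above
  rw [hm] at hs2
  have hxV : x ∈ V := (h.mem x).2 hx.le
  have hfix : s x = x := s.commutes (⟨x, IntermediateField.mem_adjoin_simple_self F x⟩ : K)
  have h1 := hs2 x hxV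
  rw [hfix, n1_lt1 h] at h1
  have h2 : ‖i (x ^ m - 1)‖ < 1 := by
    have e : i (x - x ^ (m + 1)) = -(i x * i (x ^ m - 1)) := by
      rw [← map_mul, ← map_neg]
      congr 1
      ring
    rw [e, norm_neg, norm_mul, hx, one_mul] at h1
    exact h1
  have hm1 : (Polynomial.X ^ m - Polynomial.C (1 : Ω)).Monic := Polynomial.monic_X_pow_sub_C 1 hm0.ne'
  have h3 := (IsAlgClosed.splits (Polynomial.X ^ m - Polynomial.C (1 : Ω))).eval_eq_prod_roots_of_monic hm1 x
  rw [Polynomial.eval_sub, Polynomial.eval_pow, Polynomial.eval_X, Polynomial.eval_C] at h3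
  by_contra hcon
  push Not at hcon
  have h4 : ∀ ζ ∈ (Polynomial.X ^ m - Polynomial.C (1 : Ω)).roots, 1 ≤ ‖i (x - ζ)‖ := by
    intro ζ hζ
    refine hcon ζ m hm0 hmp ?_
    have h5 := (Polynomial.mem_roots'.1 hζ).2
    rw [Polynomial.IsRoot.def, Polynomial.eval_sub, Polynomial.eval_pow, Polynomial.eval_X, Polynomial.eval_C, sub_eq_zero] at h5
    exact h5
  have h6 : ∀ S : Multiset Ω, (∀ ζ ∈ S, 1 ≤ ‖i (x - ζ)‖) → 1 ≤ ‖i ((S.map (fun a => x - a)).prod)‖ := by
    intro S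
    induction S using Multiset.induction_on with
    | empty =>
      intro _
      rw [Multiset.map_zero, Multiset.prod_zero, map_one, norm_one]
    | cons a S ih =>
      intro hS
      rw [Multiset.map_cons, Multiset.prod_cons, map_mul, norm_mul]
      exact one_le_mul_of_one_le_of_one_le (hS a (Multiset.mem_cons_self a S)) (ih fun ζ hζ => hS ζ (Multiset.mem_cons_of_mem hζ))
  have h7 := h6 _ h4
  rw [← h3] at h7
  exact absurd h2 (not_lt.2 h7)

/-- Chunk L1 (S/M). Inertia fixes the roots of unity of order prime to p. PROOF. z = s ζ / ζ, z^n = 1, ‖i (z - 1)‖ < 1 (Inert V s for ζ, which is in V as an integral element: or because ‖i ζ‖^n = 1; ‖i ζ‖ = 1). If z ≠ 1: 0 = (z^n - 1)/(z - 1) = sum_(k<n) z^k (geom_sum_mul), and the norm of sum z^k - n is < 1 while ‖i n‖ = 1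
(n prime to p, ‖i p‖ < 1: n1_int for a = n, or Bezout): contradiction. -/
theorem l1_root (h : Ctx F p V i) {s : Ω ≃ₐ[F] Ω} (hs : Inert V s) {ζ : Ω} {n : ℕ} (hn : ¬ p ∣ n) (hζ : ζ ^ n = 1) : s ζ = ζ := by
  have hn0 : n ≠ 0 := by
    rintro rfl
    exact hn (dvd_zero p)
  have hζ1 : ‖i ζ‖ = 1 := l1_one hn0 hζ
  have hζ0 : ζ ≠ 0 := by
    rintro rfl
    rw [map_zero, norm_zero] at hζ1
    exact zero_ne_one hζ1
  have h1 : ‖i (s ζ - ζ)‖ < 1 := (n1_lt1 h _).1 (hs ζ ((h.mem ζ).2 hζ1.le))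
  set z : Ω := s ζ / ζ with hz
  have hzn : z ^ n = 1 := by
    rw [hz, div_pow, ← map_pow, hζ, map_one, div_one]
  have hz1 : ‖i z‖ = 1 := l1_one hn0 hzn
  have h2 : ‖i (z - 1)‖ < 1 := by
    have e : i (z - 1) = i (s ζ - ζ) / i ζ := by
      rw [← map_div₀]
      congr 1
      rw [hz]
      field_simp
    rw [e, norm_div, hζ1, div_one]
    exact h1
  by_contra hne
  have hzne : z - 1 ≠ 0 := by
    rw [sub_ne_zero]
    intro h3
    apply hne
    rw [hz, div_eq_one_iff_eq hζ0] at h3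
    exact h3
  have h3 : ∑ k ∈ Finset.range n, z ^ k = 0 := by
    have h4 := geom_sum_mul z n
    rw [hzn, sub_self] at h4
    exact (mul_eq_zero.1 h4).resolve_right hzne
  have h5 : ∀ k : ℕ, ‖i (z ^ k - 1)‖ < 1 := by
    intro k
    have h6 := geom_sum_mul z k
    rw [← h6, map_mul, norm_mul]
    have h7 : ‖i (∑ j ∈ Finset.range k, z ^ j)‖ ≤ 1 := by
      rw [map_sum]
      refine IsUltrametricDist.norm_sum_le_of_forall_le_of_nonneg zero_le_one fun j _ => ?_
      rw [map_pow, norm_pow, hz1, one_pow]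
    calc ‖i (∑ j ∈ Finset.range k, z ^ j)‖ * ‖i (z - 1)‖ ≤ 1 * ‖i (z - 1)‖ := mul_le_mul_of_nonneg_right h7 (norm_nonneg _)
      _ < 1 := by rw [one_mul]; exact h2
  have h8 : ‖i (n : Ω)‖ < 1 := by
    have h9 : ∑ k ∈ Finset.range n, (z ^ k - 1) = -(n : Ω) := by
      rw [Finset.sum_sub_distrib, h3, Finset.sum_const, Finset.card_range, nsmul_eq_mul, mul_one, zero_sub]
    have h10 : ∀ N : ℕ, ‖i (∑ k ∈ Finset.range N, (z ^ k - 1))‖ < 1 := by
      intro N
      induction N with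
      | zero => rw [Finset.range_zero, Finset.sum_empty, map_zero, norm_zero]; exact one_pos
      | succ N ih =>
        rw [Finset.sum_range_succ, map_add]
        exact l1_add_lt ih (h5 N)
    have h11 := h10 n
    rwa [h9, map_neg, norm_neg] at h11
  have hcop : Nat.Coprime p n := (Nat.Prime.coprime_iff_not_dvd h.pr).2 hn
  have hbz : (p : ℤ) * Nat.gcdA p n + (n : ℤ) * Nat.gcdB p n = 1 := by
    rw [← Nat.gcd_eq_gcd_ab, hcop]
    norm_num
  have hbz2 : (p : C) * (Nat.gcdA p n : C) + (n : C) * (Nat.gcdB p n : C) = 1 := by exact_mod_cast congrArg (fun t : ℤ => (t : C)) hbz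
  have h12 : ‖(p : C)‖ < 1 := by
    have := (n1_p h).1
    rwa [map_natCast] at this
  have h13 : ‖(n : C)‖ < 1 := by rwa [map_natCast] at h8
  have h14 : ‖(1 : C)‖ < 1 := by
    rw [← hbz2]
    refine l1_add_lt ?_ ?_
    · rw [norm_mul]
      calc ‖(p : C)‖ * ‖(Nat.gcdA p n : C)‖ ≤ ‖(p : C)‖ * 1 := mul_le_mul_of_nonneg_left (IsUltrametricDist.norm_intCast_le_one C _) (norm_nonneg _)
        _ < 1 := by rw [mul_one]; exact h12
    · rw [norm_mul]
      calc ‖(n : C)‖ * ‖(Nat.gcdB p n : C)‖ ≤ ‖(n : C)‖ * 1 := mul_le_mul_of_nonneg_left (IsUltrametricDist.norm_intCast_le_one C _) (norm_nonneg _)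
        _ < 1 := by rw [mul_one]; exact h13
  rw [norm_one] at h14
  exact lt_irrefl _ h14

/-- Chunk L1 (S). Every element of V is congruent to an element fixed by the inertia group. (‖x‖ < 1: 0. Otherwise l1_unit, l1_root.) -/
theorem l1 (h : Ctx F p V i) {x : Ω} (hx : ‖i x‖ ≤ 1) :
    ∃ z : Ω, ‖i z‖ ≤ 1 ∧ (∀ s : Ω ≃ₐ[F] Ω, Inert V s → s z = z) ∧ ‖i (x - z)‖ < 1 := by
  rcases lt_or_eq_of_le hx with h1 | h1
  · refine ⟨0, ?_, fun s _ => map_zero s, ?_⟩
    · rw [map_zero, norm_zero]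
      exact zero_le_one
    · rw [sub_zero]
      exact h1
  · obtain ⟨ζ, n, hn, hnp, hζ, h2⟩ := l1_unit h h1
    exact ⟨ζ, (l1_one hn.ne' hζ).le, fun s hs => l1_root h hs hnp hζ, h2⟩

end SSA
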