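import Mathlib
import Pool.Agent.Lib.SSA.L1
import Pool.Agent.Lib.H13S.IN4

/-! # SSA, chunk L2 (M): the field fixed by the inertia group of a number field -/

open NumberField IsDedekindDomain WeierstrassCurve

namespace SSA

open H55P (IQ Pt ac Inert Dec Nm inS)
open H16S

variable {F : Type} [Field F] [NumberField F] {p : ℕ} {Ω C : Type} [Field Ω] [Algebra F Ω] [IsAlgClosure F Ω] [NormedField C] [IsUltrametricDist C]
  {V : ValuationSubring Ω} {i : Ω →+* C}

/-- w is a uniformizer of the number field K at V. -/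
structure Uf (V : ValuationSubring Ω) (i : Ω →+* C) (K : IntermediateField F Ω) (w : Ω) : Prop where
  mem : w ∈ K
  ne : w ≠ 0
  lt : ‖i w‖ < 1
  val : ∀ x : Ω, x ≠ 0 → x ∈ K → ∃ k : ℤ, ‖i x‖ = ‖i w‖ ^ k

/-- Chunk L2 (M). Uniformizers exist. PROOF. The set P of the a in 𝓞 K with V a < 1 is a nonzero prime ideal (p is in it: h.above; K a number field): a HeightOneSpectrum v of 𝓞 K. w in P, not in P^2 (v.valuation_exists_uniformizer K or Ideal.exists_mem_pow_notMem_pow_succ). Every x ≠ 0 of K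
is w^k u with v-adic valuation of u equal to 1, so u = a / b with a, b in 𝓞 K not in P (u in the localization; H13S.in4_val or IsLocalization.AtPrime; see the proofs in Lib/H13S/IN4.lean, H13S.Abv.le: equality of values at v gives equality of values at V), ‖i a‖ = ‖i b‖ = 1. -/
theorem l2_uf (h : Ctx F p V i) (K : IntermediateField F Ω) [NumberField K] : ∃ w : Ω, Uf V i K w := by
  have hp0 : (p : Ω) ≠ 0 := by
    intro h0
    have h1 := (n1_p h).2
    rw [h0, map_zero, norm_zero] at h1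
    exact lt_irrefl _ h1
  obtain ⟨W, hW⟩ := H13S.exists_below K V ⟨(p : K)⁻¹, by
    have e : (((p : K)⁻¹ : K) : Ω) = (p : Ω)⁻¹ := by
      push_cast
      rfl
    rw [e, h.mem, map_inv₀, norm_inv]
    intro h1
    have h2 := (n1_p h).1
    have h3 := (n1_p h).2
    exact absurd h1 (not_le.2 ((one_lt_inv₀ h3).2 h2))⟩
  obtain ⟨π, hπ⟩ := W.valuation_exists_uniformizer K
  have hπ0 : π ≠ 0 := by
    rintro rfl
    rw [map_zero] at hπ
    exact WithZero.exp_ne_zero hπ.symm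
  have hle : ∀ x y : K, ‖i (x : Ω)‖ ≤ ‖i (y : Ω)‖ ↔ W.valuation K x ≤ W.valuation K y := fun x y => (n1_le h _ _).symm.trans (hW.le x y)
  refine ⟨(π : Ω), π.2, fun h0 => hπ0 (Subtype.ext h0), ?_, ?_⟩
  · rw [← n1_lt1 h, hW.lt, hπ]
    rw [← WithZero.exp_zero, WithZero.exp_lt_exp]
    norm_num
  · intro x hx0 hxK
    have hx1 : W.valuation K (⟨x, hxK⟩ : K) ≠ 0 := (Valuation.ne_zero_iff _).2 (fun h0 => hx0 (congrArg Subtype.val h0))
    obtain ⟨n, hn⟩ : ∃ n : ℤ, W.valuation K (⟨x, hxK⟩ : K) = WithZero.exp n := by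
      refine ⟨WithZero.log (W.valuation K (⟨x, hxK⟩ : K)), ?_⟩
      rw [WithZero.exp_log hx1]
    refine ⟨-n, ?_⟩
    have h1 : W.valuation K (π ^ (-n)) = WithZero.exp n := by
      rw [map_zpow₀, hπ, ← WithZero.exp_zsmul]
      congr 1
      simp
    have h2 : ‖i x‖ = ‖i ((π ^ (-n) : K) : Ω)‖ :=
      le_antisymm ((hle ⟨x, hxK⟩ (π ^ (-n))).2 (by rw [hn, h1])) ((hle (π ^ (-n)) ⟨x, hxK⟩).2 (by rw [hn, h1]))
    rw [h2]
    have h3 : ((π ^ (-n) : K) : Ω) = (π : Ω) ^ (-n) := by push_cast; rfl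
    rw [h3, map_zpow₀, norm_zpow]

/-- Chunk L2 (S). The values of the elements fixed by the inertia group of K are the values of K: H13S.value_fixed (in K: IntermediateField elements are fixed by K.fixingSubgroup), n1_le twice, u.val. -/
theorem l2_val (h : Ctx F p V i) {K : IntermediateField F Ω} [NumberField K] {w : Ω} (u : Uf V i K w) {x : Ω} (hx : x ≠ 0)
    (hf : ∀ s ∈ K.fixingSubgroup ⊓ inS F V, s x = x) : ∃ k : ℤ, ‖i x‖ = ‖i w‖ ^ k := by
  obtain ⟨a, ha0, ha⟩ := H13S.value_fixed K V x hx (fun s hs hI => hf s ⟨hs, hI⟩)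
  have h1 : ‖i x‖ = ‖i (a : Ω)‖ := le_antisymm ((n1_le h _ _).1 ha.le) ((n1_le h _ _).1 ha.ge)
  rw [h1]
  exact u.val a (fun h0 => ha0 (Subtype.ext h0)) a.2

/-- Chunk L2 (S/M). Expansion: x fixed by the inertia group of K, ‖i x‖ ≤ 1: x = z₀ + z₁ w + ... + z_(m-1) w^(m-1) + w^m y with z_k fixed by the whole inertia group, ‖i z_k‖ ≤ 1, and y fixed by the inertia group of K, ‖i y‖ ≤ 1. PROOF. Induction over m: l1 for y gives z_m with ‖i (y - z_m)‖ < 1; y - z_m is fixed by the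
inertia group of K, so its norm is ≤ ‖i w‖ (l2_val or 0: ‖i w‖^k < 1 gives k ≥ 1), y' = (y - z_m) / w (w in K is fixed). -/
theorem l2_exp (h : Ctx F p V i) {K : IntermediateField F Ω} [NumberField K] {w : Ω} (u : Uf V i K w) {x : Ω} (hx : ‖i x‖ ≤ 1)
    (hf : ∀ s ∈ K.fixingSubgroup ⊓ inS F V, s x = x) (m : ℕ) :
    ∃ (z : ℕ → Ω) (y : Ω), (∀ k, ‖i (z k)‖ ≤ 1 ∧ ∀ s : Ω ≃ₐ[F] Ω, Inert V s → s (z k) = z k) ∧ ‖i y‖ ≤ 1 ∧
      (∀ s ∈ K.fixingSubgroup ⊓ inS F V, s y = y) ∧ x = ∑ k ∈ Finset.range m, z k * w ^ k + w ^ m * y := by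
  have hw0 : 0 < ‖i w‖ := norm_pos_iff.2 ((map_ne_zero i).2 u.ne)
  have hwf : ∀ s ∈ K.fixingSubgroup ⊓ inS F V, s w = w := fun s hs => (IntermediateField.mem_fixingSubgroup_iff K s).1 hs.1 w u.mem
  induction m with
  | zero =>
    refine ⟨fun _ => 0, x, fun _ => ⟨?_, fun s _ => map_zero s⟩, hx, hf, ?_⟩
    · rw [map_zero, norm_zero]
      exact zero_le_one
    · rw [Finset.range_zero, Finset.sum_empty, pow_zero, one_mul, zero_add]
  | succ m ih =>
    obtain ⟨z, y, hz, hy, hyf, hxe⟩ := ih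
    obtain ⟨zm, hz1, hz2, hz3⟩ := l1 h hy
    have hfix : ∀ s ∈ K.fixingSubgroup ⊓ inS F V, s (y - zm) = y - zm := by
      intro s hs
      rw [map_sub, hyf s hs, hz2 s hs.2]
    have hle : ‖i (y - zm)‖ ≤ ‖i w‖ := by
      by_cases h0 : y - zm = 0
      · rw [h0, map_zero, norm_zero]
        exact hw0.le
      · obtain ⟨k, hk⟩ := l2_val h u h0 hfix
        rw [hk] at hz3 ⊢
        have hk1 : 1 ≤ k := by
          by_contra hc
          have hc' : k ≤ 0 := by omega
          have h5 : (1 : ℝ) ≤ ‖i w‖ ^ k := by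
            obtain ⟨j, hj⟩ : ∃ j : ℕ, k = -(j : ℤ) := ⟨(-k).toNat, by omega⟩
            rw [hj, zpow_neg, zpow_natCast]
            exact (one_le_inv₀ (pow_pos hw0 j)).2 (pow_le_one₀ hw0.le u.lt.le)
          exact absurd hz3 (not_lt.2 h5)
        obtain ⟨j, hj⟩ : ∃ j : ℕ, k = ((j + 1 : ℕ) : ℤ) := ⟨(k - 1).toNat, by omega⟩
        rw [hj, zpow_natCast, pow_succ]
        exact mul_le_of_le_one_left hw0.le (pow_le_one₀ hw0.le u.lt.le)
    refine ⟨Function.update z m zm, (y - zm) / w, ?_, ?_, ?_, ?_⟩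
    · intro k
      by_cases hk : k = m
      · subst hk
        rw [Function.update_self]
        exact ⟨hz1, hz2⟩
      · rw [Function.update_of_ne hk]
        exact hz k
    · rw [map_div₀, norm_div]
      exact (div_le_one hw0).2 hle
    · intro s hs
      rw [map_div₀, hfix s hs, hwf s hs]
    · have h6 : ∑ k ∈ Finset.range m, Function.update z m zm k * w ^ k = ∑ k ∈ Finset.range m, z k * w ^ k := by
        refine Finset.sum_congr rfl fun k hk => ?_
        rw [Function.update_of_ne (Finset.mem_range.1 hk).ne]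
      have h7 : w * ((y - zm) / w) = y - zm := mul_div_cancel₀ _ u.ne
      rw [Finset.sum_range_succ, h6, Function.update_self, pow_succ, mul_assoc (w ^ m), h7, hxe]
      ring

end SSA
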