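import Mathlib
import Pool.Agent.Lib.SSA.L2

/-! # SSA, chunk L3 (M): wild inertia: break at least 1, and exactly 1 under the condition on the second ramification group -/

open NumberField IsDedekindDomain WeierstrassCurve

namespace SSA

open H55P (IQ Pt ac Inert Dec Nm inS)
open H16S

variable {F : Type} [Field F] [NumberField F] {p : ℕ} {Ω C : Type} [Field Ω] [Algebra F Ω] [IsAlgClosure F Ω] [NormedField C] [IsUltrametricDist C]
  {V : ValuationSubring Ω} {i : Ω →+* C}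

/-- Norms of elements with values in the powers of ‖i w‖. -/
theorem l3_pow (h : Ctx F p V i) {K : IntermediateField F Ω} [NumberField K] {w : Ω} (u : Uf V i K w) {x : Ω}
    (hf : ∀ s ∈ K.fixingSubgroup ⊓ inS F V, s x = x) {n : ℕ} (hlt : ‖i x‖ < ‖i w‖ ^ n) : ‖i x‖ ≤ ‖i w‖ ^ (n + 1) := by
  have hw0 : 0 < ‖i w‖ := norm_pos_iff.2 ((map_ne_zero i).2 u.ne)
  by_cases h0 : x = 0
  · rw [h0, map_zero, norm_zero]
    exact (pow_pos hw0 _).le
  · obtain ⟨k, hk⟩ := l2_val h u h0 hf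
    rw [hk] at hlt ⊢
    have h1 : ((n : ℤ) + 1) ≤ k := by
      have h2 : ‖i w‖ ^ k < ‖i w‖ ^ (n : ℤ) := by rwa [zpow_natCast]
      have h3 := (zpow_lt_zpow_iff_right_of_lt_one₀ hw0 u.lt).1 h2
      omega
    have h4 : ‖i w‖ ^ (n + 1) = ‖i w‖ ^ ((n : ℤ) + 1) := by
      rw [← zpow_natCast]
      push_cast
      rfl
    rw [h4]
    exact zpow_le_zpow_right_of_le_one₀ hw0 u.lt.le h1

/-- s (σ w) = σ w. -/
theorem l3_fix {K : IntermediateField F Ω} {w : Ω} (hw : w ∈ K) {σ : Ω ≃ₐ[F] Ω}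
    (hn : ∀ s ∈ K.fixingSubgroup, σ⁻¹ * s * σ ∈ K.fixingSubgroup) : ∀ s ∈ K.fixingSubgroup ⊓ inS F V, s (σ w) = σ w := by
  intro s hs
  have h1 : (σ⁻¹ * s * σ) w = w := (IntermediateField.mem_fixingSubgroup_iff K _).1 (hn s hs.1) w hw
  have h2 : (σ * (σ⁻¹ * s * σ)) w = σ w := congrArg σ h1
  have h3 : σ * (σ⁻¹ * s * σ) = s * σ := by group
  rw [h3] at h2
  exact h2

theorem l3_powsub {a b : C} (ha : ‖a‖ ≤ 1) (hb : ‖b‖ ≤ 1) (k : ℕ) : ‖a ^ k - b ^ k‖ ≤ ‖a - b‖ := by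
  induction k with
  | zero => rw [pow_zero, pow_zero, sub_self, norm_zero]; exact norm_nonneg _
  | succ k ih =>
    have e : a ^ (k + 1) - b ^ (k + 1) = a ^ k * (a - b) + (a ^ k - b ^ k) * b := by ring
    rw [e]
    refine l1_add_le ?_ ?_
    · rw [norm_mul, norm_pow]
      exact mul_le_of_le_one_left (norm_nonneg _) (pow_le_one₀ (norm_nonneg _) ha)
    · rw [norm_mul]
      calc ‖a ^ k - b ^ k‖ * ‖b‖ ≤ ‖a ^ k - b ^ k‖ * 1 := mul_le_mul_of_nonneg_left hb (norm_nonneg _)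
        _ ≤ ‖a - b‖ := by rw [mul_one]; exact ih

/-- Chunk L3 (M). PROOF. u₀ = σ w / w, ‖i u₀‖ = 1 (n1_dec). σ^k w / w is congruent to u₀^k (induction: σ^(k+1) w / w = σ (σ^k w / w) * u₀, and σ x = x modulo the maximal ideal for x in V: Inert). σ^(p^m) w = w (in K): u₀^(p^m) - 1 has norm < 1. (u₀ - 1)^(p^m) = u₀^(p^m) - 1 modulo p (odd p: sub_pow or the residue field of V, characteristic p:
sub_pow_char_pow), so ‖i (u₀ - 1)‖ < 1. u₀ - 1 is fixed by J = K.fixingSubgroup ⊓ inS F V (hn: s (σ w) = σ (σ⁻¹ s σ w) = σ w), so its norm is ≤ ‖i w‖ (l2_val). -/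
theorem l3_w (h : Ctx F p V i) {K : IntermediateField F Ω} [NumberField K] {w : Ω} (u : Uf V i K w) {σ : Ω ≃ₐ[F] Ω} (hσ : Inert V σ)
    (hn : ∀ s ∈ K.fixingSubgroup, σ⁻¹ * s * σ ∈ K.fixingSubgroup) {m : ℕ} (hm : σ ^ p ^ m ∈ K.fixingSubgroup) :
    ‖i (σ w - w)‖ ≤ ‖i w‖ ^ 2 := by
  classical
  have hw0 : 0 < ‖i w‖ := norm_pos_iff.2 ((map_ne_zero i).2 u.ne)
  have hwf : ∀ s ∈ K.fixingSubgroup ⊓ inS F V, s w = w := fun s hs => (IntermediateField.mem_fixingSubgroup_iff K s).1 hs.1 w u.mem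
  have hal0 : Algebra.IsAlgebraic F Ω := IsAlgClosure.isAlgebraic
  have hD : Dec V σ := H55P.inert_dec V σ hσ
  have hDk : ∀ k : ℕ, Inert V (σ ^ k) := fun k => (inS F V).pow_mem hσ k
  have hA1 : ∀ k : ℕ, ‖i ((σ ^ k) w / w)‖ = 1 := by
    intro k
    rw [map_div₀, norm_div, n1_dec h (H55P.inert_dec V _ (hDk k)), div_self hw0.ne']
  have hu1 : ‖i (σ w / w)‖ = 1 := by
    have := hA1 1
    rwa [pow_one] at this
  have hcong : ∀ k : ℕ, ‖i ((σ ^ k) w / w - (σ w / w) ^ k)‖ < 1 := by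
    intro k
    induction k with
    | zero =>
      rw [pow_zero, pow_zero]
      have e : (1 : Ω ≃ₐ[F] Ω) w / w - 1 = 0 := by
        rw [AlgEquiv.one_apply, div_self u.ne, sub_self]
      rw [e, map_zero, norm_zero]
      exact one_pos
    | succ k ih =>
      have e : (σ ^ (k + 1)) w / w - (σ w / w) ^ (k + 1) =
          (σ ((σ ^ k) w / w) - (σ ^ k) w / w) * (σ w / w) + ((σ ^ k) w / w - (σ w / w) ^ k) * (σ w / w) := by
        have e1 : (σ ^ (k + 1)) w = σ ((σ ^ k) w) := by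
          rw [pow_succ']
          rfl
        rw [e1, map_div₀]
        have hσw : σ w ≠ 0 := (map_ne_zero σ).2 u.ne
        have e2 : σ ((σ ^ k) w) / σ w * (σ w / w) = σ ((σ ^ k) w) / w := div_mul_div_cancel₀ hσw
        rw [sub_mul, sub_mul, e2, pow_succ]
        ring
      rw [e, map_add]
      refine l1_add_lt ?_ ?_
      · rw [map_mul, norm_mul, hu1, mul_one]
        exact (n1_lt1 h _).1 (hσ _ ((h.mem _).2 (hA1 k).le))
      · rw [map_mul, norm_mul, hu1, mul_one]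
        exact ih
  have hone : ‖i ((σ w / w) ^ p ^ m - 1)‖ < 1 := by
    have h1 := hcong (p ^ m)
    have h2 : (σ ^ p ^ m) w = w := (IntermediateField.mem_fixingSubgroup_iff K _).1 hm w u.mem
    rw [h2, div_self u.ne, ← norm_neg, ← map_neg, neg_sub] at h1
    exact h1
  have hV1 : σ w / w - 1 ∈ V := by
    rw [h.mem, map_sub, map_one, sub_eq_add_neg]
    refine l1_add_le hu1.le ?_
    rw [norm_neg, norm_one]
  obtain ⟨r, hr⟩ := exists_add_pow_prime_pow_eq h.pr (⟨σ w / w - 1, hV1⟩ : V) 1 m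
  have hr' : (σ w / w) ^ p ^ m = (σ w / w - 1) ^ p ^ m + 1 + (p : Ω) * ((σ w / w - 1) * (r : Ω)) := by
    have h3 := congrArg (fun t : V => (t : Ω)) hr
    simp only [one_pow] at h3
    push_cast at h3
    rw [sub_add_cancel] at h3
    rw [h3]
    ring
  have hr1 : ‖i ((σ w / w - 1) * (r : Ω))‖ ≤ 1 := (h.mem _).1 (V.mul_mem _ _ hV1 r.2)
  have hpw : ‖i (σ w / w - 1)‖ ^ p ^ m < 1 := by
    rw [← norm_pow, ← map_pow]
    have e : (σ w / w - 1) ^ p ^ m = ((σ w / w) ^ p ^ m - 1) + -((p : Ω) * ((σ w / w - 1) * (r : Ω))) := by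
      rw [hr']
      ring
    rw [e, map_add]
    refine l1_add_lt hone ?_
    rw [map_neg, norm_neg, map_mul, norm_mul]
    calc ‖i (p : Ω)‖ * ‖i ((σ w / w - 1) * (r : Ω))‖ ≤ ‖i (p : Ω)‖ * 1 := mul_le_mul_of_nonneg_left hr1 (norm_nonneg _)
      _ < 1 := by rw [mul_one]; exact (n1_p h).1
  have hlt : ‖i (σ w / w - 1)‖ < ‖i w‖ ^ 0 := by
    rw [pow_zero]
    exact (pow_lt_one_iff_of_nonneg (norm_nonneg _) (pow_ne_zero m h.pr.ne_zero)).1 hpw
  have hfx : ∀ s ∈ K.fixingSubgroup ⊓ inS F V, s (σ w / w - 1) = σ w / w - 1 := by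
    intro s hs
    rw [map_sub, map_div₀, map_one, l3_fix u.mem hn s hs, hwf s hs]
  have hle := l3_pow h u hfx hlt
  rw [zero_add, pow_one] at hle
  have e : σ w - w = w * (σ w / w - 1) := by
    rw [mul_sub, mul_one, mul_div_cancel₀ _ u.ne]
  rw [e, map_mul, norm_mul, pow_two]
  exact mul_le_mul_of_nonneg_left hle hw0.le

/-- Chunk L3 (S/M). A bound for σ x - x by the one for w. PROOF. l2_exp with m = N: x = sum z_k w^k + w^N y; σ x - x = sum_(k ≥ 1) z_k (σ (w^k) - w^k) + (σ (w^N y) - w^N y); σ (w^k) - w^k is divisible by σ w - w (the quotient is a sum of products of integral elements: geom_sum; Commute.mul_geom_sum₂), the last term has norm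
≤ ‖i w‖^N. -/
theorem l3_x (h : Ctx F p V i) {K : IntermediateField F Ω} [NumberField K] {w : Ω} (u : Uf V i K w) {σ : Ω ≃ₐ[F] Ω} (hσ : Inert V σ)
    (N : ℕ) {x : Ω} (hx : ‖i x‖ ≤ 1) (hf : ∀ s ∈ K.fixingSubgroup ⊓ inS F V, s x = x) :
    ‖i (σ x - x)‖ ≤ max ‖i (σ w - w)‖ (‖i w‖ ^ N) := by
  classical
  have hw0 : 0 < ‖i w‖ := norm_pos_iff.2 ((map_ne_zero i).2 u.ne)
  have hal0 : Algebra.IsAlgebraic F Ω := IsAlgClosure.isAlgebraic
  have hD : Dec V σ := H55P.inert_dec V σ hσ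
  obtain ⟨z, y, hz, hy, -, hxe⟩ := l2_exp h u hx hf N
  have e : σ x - x = ∑ k ∈ Finset.range N, z k * ((σ w) ^ k - w ^ k) + (σ (w ^ N * y) - w ^ N * y) := by
    rw [hxe, map_add, map_sum]
    have e1 : ∀ k ∈ Finset.range N, σ (z k * w ^ k) = z k * (σ w) ^ k := by
      intro k _
      rw [map_mul, (hz k).2 σ hσ, map_pow]
    rw [Finset.sum_congr rfl e1]
    simp only [mul_sub, Finset.sum_sub_distrib]
    ring
  rw [e, map_add, map_sum]
  refine l1_add_le ?_ ?_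
  · refine IsUltrametricDist.norm_sum_le_of_forall_le_of_nonneg (le_trans (norm_nonneg _) (le_max_left _ _)) fun k _ => ?_
    refine le_trans ?_ (le_max_left _ _)
    rw [map_mul, norm_mul]
    have h1 : ‖i ((σ w) ^ k - w ^ k)‖ ≤ ‖i (σ w - w)‖ := by
      rw [map_sub, map_sub, map_pow, map_pow]
      refine l3_powsub ?_ u.lt.le k
      rw [n1_dec h hD]
      exact u.lt.le
    calc ‖i (z k)‖ * ‖i ((σ w) ^ k - w ^ k)‖ ≤ 1 * ‖i ((σ w) ^ k - w ^ k)‖ := mul_le_mul_of_nonneg_right (hz k).1 (norm_nonneg _)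
      _ ≤ ‖i (σ w - w)‖ := by rw [one_mul]; exact h1
  · refine le_trans ?_ (le_max_right _ _)
    have h2 : ‖i (w ^ N * y)‖ ≤ ‖i w‖ ^ N := by
      rw [map_mul, norm_mul, map_pow, norm_pow]
      exact mul_le_of_le_one_right (pow_pos hw0 N).le hy
    rw [map_sub, sub_eq_add_neg]
    refine l1_add_le ?_ ?_
    · rw [n1_dec h hD]
      exact h2
    · rw [norm_neg]
      exact h2

/-- The condition on the second ramification group at V, for the single element σ: σ does not act trivially on the integers of K modulo the third power of the maximal ideal. -/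
def G2e (V : ValuationSubring Ω) (i : Ω →+* C) (K : IntermediateField F Ω) (σ : Ω ≃ₐ[F] Ω) : Prop :=
  ∀ w, Uf V i K w → ∃ x : Ω, (∀ s ∈ K.fixingSubgroup ⊓ inS F V, s x = x) ∧ ‖i x‖ ≤ 1 ∧ ‖i w‖ ^ 3 < ‖i (σ x - x)‖

/-- Chunk L3 (M). THE LOCAL SITUATION. PROOF. l2_uf: w. J = K.fixingSubgroup ⊓ inS F V. dec: inert_dec. nrm: hn and H13X.Inert.conj. sp: hm with m = 1 and inS F V is a subgroup. val: l2_val. ep: l2_val for x = p: ‖i p‖ = ‖i w‖^k, k an integer, k ≥ 0 because ‖i p‖ ≤ 1: e = k.toNat. br1: l3_x with N = 2 and l3_w. br2: ≤ by l3_w; if < then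
σ w - w (fixed by J, as in l3_w; or 0) has norm ≤ ‖i w‖^3 (l2_val), so all σ x - x have norm ≤ ‖i w‖^3 (l3_x, N = 3): contradiction with hG2. -/
theorem l3 (h : Ctx F p V i) (K : IntermediateField F Ω) [NumberField K] {σ : Ω ≃ₐ[F] Ω} (hσ : Inert V σ)
    (hn : ∀ s ∈ K.fixingSubgroup, σ⁻¹ * s * σ ∈ K.fixingSubgroup) (hm : σ ^ p ∈ K.fixingSubgroup) (hG2 : G2e V i K σ) :
    ∃ (e : ℕ) (w : Ω), Br p e V i (K.fixingSubgroup ⊓ inS F V) σ w := by
  classical
  obtain ⟨w, u⟩ := l2_uf h K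
  have hw0 : 0 < ‖i w‖ := norm_pos_iff.2 ((map_ne_zero i).2 u.ne)
  have hwf : ∀ s ∈ K.fixingSubgroup ⊓ inS F V, s w = w := fun s hs => (IntermediateField.mem_fixingSubgroup_iff K s).1 hs.1 w u.mem
  have hp0 : (p : Ω) ≠ 0 := by
    intro h0
    have h1 := (n1_p h).2
    rw [h0, map_zero, norm_zero] at h1
    exact lt_irrefl _ h1
  obtain ⟨k, hk⟩ := l2_val h u hp0 (fun s _ => map_natCast s p)
  have hk0 : 0 ≤ k := by
    by_contra hc
    have h2 : (1 : ℝ) < ‖i w‖ ^ k := by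
      obtain ⟨j, hj⟩ : ∃ j : ℕ, k = -((j + 1 : ℕ) : ℤ) := ⟨(-k - 1).toNat, by omega⟩
      rw [hj, zpow_neg, zpow_natCast]
      exact (one_lt_inv₀ (pow_pos hw0 _)).2 (pow_lt_one₀ hw0.le u.lt (Nat.succ_ne_zero j))
    rw [← hk] at h2
    exact absurd (n1_p h).1 (not_lt.2 h2.le)
  have hw2 : ‖i (σ w - w)‖ ≤ ‖i w‖ ^ 2 := l3_w h u hσ hn (m := 1) (by rw [pow_one]; exact hm)
  refine ⟨k.toNat, w, ?_⟩
  exact
    { dec := fun s hs => H55P.inert_dec V s hs.2
      inert := hσ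
      nrm := fun s hs => ⟨hn s hs.1, H13X.Inert.conj hs.2 (H55P.inert_dec V σ hσ)⟩
      sp := ⟨hm, (inS F V).pow_mem hσ p⟩
      fw := hwf
      w0 := u.ne
      w1 := u.lt
      val := fun x hx0 hx => l2_val h u hx0 hx
      ep := by
        rw [hk, ← zpow_natCast, Int.toNat_of_nonneg hk0]
      br1 := fun x hxf hx => le_trans (l3_x h u hσ 2 hx hxf) (max_le hw2 le_rfl)
      br2 := by
        refine le_antisymm hw2 ?_
        by_contra hc
        rw [not_le] at hc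
        have hfx : ∀ s ∈ K.fixingSubgroup ⊓ inS F V, s (σ w - w) = σ w - w := by
          intro s hs
          rw [map_sub, l3_fix u.mem hn s hs, hwf s hs]
        have h3 := l3_pow h u hfx hc
        obtain ⟨x, hxf, hx, hlt⟩ := hG2 w u
        have h4 := le_trans (l3_x h u hσ 3 hx hxf) (max_le h3 le_rfl)
        exact absurd hlt (not_lt.2 h4) }

end SSA
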