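import Mathlib
import Pool.Agent.Lib.SSA.B5
import Pool.Agent.Lib.SSA.B6
import Pool.Agent.Lib.SSA.L3
import Pool.Agent.Lib.H19B.ST3

/-! # SSA, chunk D1 (M): the local alternative in a step of degree p -/

open NumberField IsDedekindDomain WeierstrassCurve

namespace SSA

open H55P (IQ Pt ac acR Inert Dec Nm inS Coc)
open H35P (WAB Ker tt)
open H55K
open H16S

variable {F : Type} [Field F] [NumberField F] [IQ F] {A B : F} {Om : ℂ} {Ω : Type} [Field Ω] [DecidableEq Ω]
  [Algebra F Ω] [IsAlgClosure F Ω] {j : Ω →+* ℂ} {act : 𝓞 F →+* AddMonoid.End (Pt (WAB A B) Ω)} {V : ValuationSubring Ω}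
  {C : Type} [NormedField C] [IsUltrametricDist C] {i : Ω →+* C} {p : ℕ}

/-- Every element of N outside K generates N modulo K, and its p-th power is in K. -/
def Cyc {G : Type} [Group G] (p : ℕ) (N K : Subgroup G) : Prop :=
  ∀ σ ∈ N, σ ∉ K → σ ^ p ∈ K ∧ ∀ s ∈ N, ∃ (k : ℕ) (n : G), n ∈ K ∧ s = σ ^ k * n

/-- Chunk D1 (M). PROOF. If all s in N.fixingSubgroup with Inert V s are in K.fixingSubgroup then the given P works. Otherwise σ in N.fixingSubgroup, Inert V σ, not in K.fixingSubgroup. σ⁻¹ s σ in K.fixingSubgroup for s in K.fixingSubgroup: σ maps K to K (hnorm), so s (σ x) = σ x. hcyc: σ^p in K.fixingSubgroup. l3 with hG2: Br for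
J = K.fixingSubgroup ⊓ inS F V. b6 with G = Ω ≃ₐ[F] Ω, ρ = acR (WAB A B) (acR_apply), N, K = the fixing subgroups, I = inS F V (mem_inS), H from b5 (the sum of the acR (σ^k) R is the sum of the ac (σ^k) R). The cocycle condition is hc.mul (Coc: H55P). -/
theorem alt_step [CompleteSpace C] (h : Ctx F p V i) (hA : CMA F A B Om j act) (hS : Sup act p) (hG : GV A B V)
    {N K : IntermediateField F Ω} [NumberField K] (hNK : N ≤ K) (hnorm : ∀ s ∈ N.fixingSubgroup, ∀ x ∈ K, s x ∈ K)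
    (hcyc : Cyc p N.fixingSubgroup K.fixingSubgroup)
    (hG2 : ∀ σ ∈ N.fixingSubgroup, Inert V σ → σ ∉ K.fixingSubgroup → G2e V i K σ) : H19B.Alt (WAB A B) p N K V := by
  classical
  intro _ c hc _ hP
  obtain ⟨P, hP⟩ := hP
  by_cases hall : ∀ s ∈ N.fixingSubgroup, Inert V s → s ∈ K.fixingSubgroup
  · exact ⟨P, fun s hs hi => hP s (hall s hs hi) hi⟩
  · push Not at hall
    obtain ⟨σ, hσN, hσI, hσK⟩ := hall
    obtain ⟨hσp, hg⟩ := hcyc σ hσN hσK
    have hn : ∀ s ∈ K.fixingSubgroup, σ⁻¹ * s * σ ∈ K.fixingSubgroup := by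
      intro s hs
      rw [IntermediateField.mem_fixingSubgroup_iff] at hs ⊢
      intro x hx
      have h1 : s (σ x) = σ x := hs _ (hnorm σ hσN x hx)
      change σ⁻¹ (s (σ x)) = x
      rw [h1]
      exact σ.symm_apply_apply x
    obtain ⟨e, w, hb⟩ := l3 h K hσI hn hσp (hG2 σ hσN hσI hσK)
    obtain ⟨P', hP'⟩ := b6 (acR (WAB A B)) (N := N.fixingSubgroup) (K := K.fixingSubgroup) (I := inS F V)
      (IntermediateField.fixingSubgroup_le hNK) hσN ((H55P.mem_inS V σ).2 hσI) hσp hn hg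
      (fun R hR hs => b5 h hA hS hG hb hR hs) (c := c) hc.mul (P := P) (fun s hs hi => hP s hs hi)
    exact ⟨P', fun s hs hi => hP' s hs hi⟩

end SSA
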