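import Mathlib
import Pool.Agent.Lib.SSA.D1
import Pool.Agent.Lib.H19B.ST3

/-! # SSA, chunk D2 (M): steps of degree p; the tower theorem with a local alternative in the steps of degree p -/

open NumberField IsDedekindDomain WeierstrassCurve

namespace SSA

open H55P
open H19B (Alt)

variable {F : Type} [Field F] [NumberField F] {Ω : Type} [Field Ω] [DecidableEq Ω] [Algebra F Ω]
  [IsAlgClosed Ω] [Algebra.IsAlgebraic F Ω] [CharZero Ω]

omit [DecidableEq Ω] in
/-- Chunk D2 (S/M). PROOF. The beginning of the proof of H19B.sel_stepG (Lib/H19B/ST2.lean): the extension K/N (IntermediateField.extendScalars hNK) is Galois with a group of prime order p (s3_galois, hfr, hcard). σ restricts to an element τ ≠ 1 (s3_restr; σ not in K.fixingSubgroup), which generates (a group of prime order: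
mem_powers_of_prime_card or zpowers_eq_top_of_prime_card), τ^p = 1; s restricts to τ^k (mem_powers_iff_mem_zpowers), n = σ^(-k) s fixes K. (hpow in that proof.) -/
theorem d2_cyc (p : ℕ) (hp : p.Prime) (N K : IntermediateField F Ω) [FiniteDimensional F K] (hNK : N ≤ K)
    (hnorm : ∀ s ∈ N.fixingSubgroup, ∀ x ∈ K, s x ∈ K) (hdeg : Module.finrank F K = Module.finrank F N * p) :
    Cyc p N.fixingSubgroup K.fixingSubgroup := by
  classical
  intro σ hσ hσK
  have hfin := s3_fin N K hNK
  have hgal := s3_galois N K hNK hnorm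
  have hdN : Module.finrank F N ≠ 0 := by
    intro h
    rw [h, zero_mul] at hdeg
    exact (Module.finrank_pos (R := F) (M := K)).ne' hdeg
  have hfr : Module.finrank N (IntermediateField.extendScalars hNK) = p := by
    have h1 := Module.finrank_mul_finrank F N (IntermediateField.extendScalars hNK)
    have h2 : Module.finrank F (IntermediateField.extendScalars hNK) = Module.finrank F K := rfl
    rw [h2, hdeg] at h1
    exact Nat.eq_of_mul_eq_mul_left (Nat.pos_of_ne_zero hdN) h1
  have hcard : Nat.card Gal((IntermediateField.extendScalars hNK)/N) = p := by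
    rw [IsGalois.card_aut_eq_finrank, hfr]
  have : Fact p.Prime := ⟨hp⟩
  obtain ⟨τ, hτ⟩ := s3_restr (IntermediateField.extendScalars hNK) σ hσ
  have hτ1 : τ ≠ 1 := by
    rintro rfl
    apply hσK
    rw [s3_mem]
    intro x hx
    exact (hτ ⟨x, hx⟩).symm
  have hpow : ∀ (i : ℕ) (x : IntermediateField.extendScalars hNK),
      (σ ^ i) (x : Ω) = (((τ ^ i) x : IntermediateField.extendScalars hNK) : Ω) := by
    intro i
    induction i with
    | zero => intro x; rfl
    | succ n ih =>
      intro x
      rw [pow_succ', pow_succ', AlgEquiv.mul_apply, AlgEquiv.mul_apply, ih, hτ]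
  constructor
  · rw [s3_mem]
    intro x hx
    have h4 := hpow p ⟨x, hx⟩
    have h5 : τ ^ p = 1 := by
      rw [← hcard]
      exact pow_card_eq_one'
    rw [h5] at h4
    exact h4
  · intro h hh
    obtain ⟨sh, hsh⟩ := s3_restr (IntermediateField.extendScalars hNK) h hh
    have h1 : sh ∈ Submonoid.powers τ := mem_powers_of_prime_card hcard hτ1
    obtain ⟨i, hi⟩ := h1
    refine ⟨i, (σ ^ i)⁻¹ * h, ?_, by group⟩
    rw [s3_mem]
    intro x hx
    have h2 : h x = (σ ^ i) x := by
      have h3 := hsh ⟨x, hx⟩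
      have h4 := hpow i ⟨x, hx⟩
      have hi' : τ ^ i = sh := hi
      rw [hi', h3] at h4
      exact h4.symm
    rw [AlgEquiv.mul_apply, h2]
    exact (σ ^ i).symm_apply_apply x

/-- Chunk D2 (S). PROOF. Copy of H19B.sel_towerG (Lib/H19B/ST3.lean); the only use of the third alternative is halt V hv N K hMN hNK hKL, where hdeg and hnorm are available. -/
theorem sel_towerA (W₀ : WeierstrassCurve (𝓞 F)) [(W₀⁄F).IsElliptic] (p : ℕ) (hp : p.Prime)
    (M L : IntermediateField F Ω) (hL : PExt p M L)
    (h0 : ∀ T : Pt (W₀⁄F) Ω, p • T = 0 → (∀ s ∈ M.fixingSubgroup, ac (W₀⁄F) s T = T) → T = 0)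
    (hcomm : ∀ s ∈ M.fixingSubgroup, ∀ t ∈ M.fixingSubgroup, ∀ T : Pt (W₀⁄F) Ω, p • T = 0 →
      ac (W₀⁄F) s (ac (W₀⁄F) t T) = ac (W₀⁄F) t (ac (W₀⁄F) s T))
    (hram : ∀ v : HeightOneSpectrum (𝓞 M), Ram M L v.asIdeal → ((p : 𝓞 M) ∉ v.asIdeal ∧
      ((algebraMap (𝓞 F) (𝓞 M) W₀.Δ ∉ v.asIdeal ∧
        ¬ p ∣ Nat.card (W₀⁄(𝓞 M ⧸ v.asIdeal)).toAffine.Point) ∨
      ∀ V : ValuationSubring Ω, Below V M v.asIdeal → ∀ T : Pt (W₀⁄F) Ω, p • T = 0 →
        (∀ s ∈ L.fixingSubgroup, Inert V s → ac (W₀⁄F) s T = T) → T = 0)) ∨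
      ∀ V : ValuationSubring Ω, Below V M v.asIdeal → ∀ N K : IntermediateField F Ω, M ≤ N → N ≤ K → K ≤ L →
        Module.finrank F K = Module.finrank F N * p → (∀ s ∈ N.fixingSubgroup, ∀ x ∈ K, s x ∈ K) → Alt (W₀⁄F) p N K V)
    (hS : SelZero (W₀⁄F) p M) (K : IntermediateField F Ω) (hMK : M ≤ K) (hKL : K ≤ L) :
    SelZero (W₀⁄F) p K := by
  have hLf : FiniteDimensional F L := hL.fin
  have hMf : FiniteDimensional F M :=
    (Module.Finite.of_injective (IntermediateField.inclusion hL.le).toLinearMap
      (IntermediateField.inclusion hL.le).injective)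
  obtain ⟨k, hk⟩ := hL.pow p hp M L
  have hconj : ∀ s ∈ M.fixingSubgroup, ∀ t ∈ L.fixingSubgroup, s * t * s⁻¹ ∈ L.fixingSubgroup :=
    fun s hs t ht => hL.conj p M L s hs t ht
  have hfin := tors_fin (Ω := Ω) (W₀⁄F) p hp.pos
  -- no torsion over L
  have htL : ∀ T : Pt (W₀⁄F) Ω, p • T = 0 → (∀ s ∈ L.fixingSubgroup, ac (W₀⁄F) s T = T) → T = 0 := by
    intro T hT hf
    exact fix_up (acR (W₀⁄F)) p hp hfin L.fixingSubgroup M.fixingSubgroup
      (fun s hs => fixing_anti hL.le hs) hconj k hk h0 T hT hf
  induction hn : Module.finrank F K using Nat.strong_induction_on generalizing K with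
  | _ n ih =>
    rcases eq_or_ne K M with rfl | hne
    · exact hS
    obtain ⟨N, hMN, hNK, hdeg, hnorm⟩ := chain_step p hp M K L hL hMK hKL hne
    have hKf : FiniteDimensional F K :=
      (Module.Finite.of_injective (IntermediateField.inclusion hKL).toLinearMap
        (IntermediateField.inclusion hKL).injective)
    have hNf : FiniteDimensional F N :=
      (Module.Finite.of_injective (IntermediateField.inclusion hNK).toLinearMap
        (IntermediateField.inclusion hNK).injective)
    have hNpos : 0 < Module.finrank F N := Module.finrank_pos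
    have hlt : Module.finrank F N < n := by
      rw [← hn, hdeg]
      exact lt_mul_of_one_lt_right hNpos hp.one_lt
    have hSN := ih _ hlt N hMN (hNK.trans hKL) rfl
    refine H19B.sel_stepG (W₀⁄F) p hp N K hNK hnorm hdeg
      (fun T hT hf => htL T hT fun s hs => hf s (fixing_anti hKL hs)) (fun V => ?_) hSN
    rcases below_cases M V with ⟨v, hv⟩ | htriv
    · by_cases hr : Ram M L v.asIdeal
      · right
        rcases hram v hr with ⟨hpv, hdisj⟩ | halt
        swap
        · right
          exact halt V hv N K hMN hNK hKL hdeg hnorm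
        obtain ⟨hΔ, hc⟩ | hbad := hdisj
        swap
        · right
          intro _ c hc hpc _
          exact H55K.NB.inert_cob (W₀⁄F) p hp N V (val_below M V v hv p hpv)
            (fun s hs t ht T hT => hcomm s (fixing_anti hMN hs) t (fixing_anti hMN ht) T hT)
            (fun T hT hf => hbad V hv T hT fun s hs hi => hf s (fixing_anti (hNK.trans hKL) hs) hi) c hc hpc
        left
        refine ⟨fun s _ hI P hP => ?_, fun T hT hf => ?_⟩
        · exact red_fix (W₀⁄F) V (good_below W₀ M V v hv hΔ) p (val_below M V v hv p hpv) s hI P hP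
        · refine fix_up (acR (W₀⁄F)) p hp hfin (L.fixingSubgroup ⊓ decS F V)
            (M.fixingSubgroup ⊓ decS F V) ?_ ?_ k ?_ ?_ T hT ?_
          · exact inf_le_inf_right _ fun s hs => fixing_anti hL.le hs
          · intro s hs t ht
            exact ⟨hconj s hs.1 t ht.1,
              (decS F V).mul_mem ((decS F V).mul_mem hs.2 ht.2) ((decS F V).inv_mem hs.2)⟩
          · intro s hs
            exact ⟨hk s hs.1, (decS F V).pow_mem hs.2 _⟩
          · intro T' hT' hf'
            exact fix_local W₀ p hp M V v hv hΔ hpv hc T' hT' fun s hs hd => hf' s ⟨hs, hd⟩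
          · intro s hs
            exact hf s (fixing_anti (hNK.trans hKL) hs.1) hs.2
      · left
        intro s hs hI
        refine fixing_anti hKL (inert_mem M L hL.le hL.norm V ?_ s (fixing_anti hMN hs) hI)
        intro v' hv' hr'
        apply hr
        have : v' = v := by
          apply HeightOneSpectrum.ext
          ext x
          rw [hv' x, hv x]
        rwa [← this]
    · left
      intro s _ hI
      rw [htriv s hI]
      exact one_mem _

end SSA
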