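import Mathlib
import Pool.Agent.Lib.SSR.R8

/-! # SSA, chunk L4 (M): the second ramification group of a quotient -/

open NumberField IsDedekindDomain

namespace SSA

open SSR

variable {N : Type} [Field N] [NumberField N] {M : Type} [Field M] [NumberField M] {L : Type} [Field L] [NumberField L]
  [Algebra N M] [Algebra N L] [Algebra M L] [IsScalarTower N M L]

/-- Chunk L4 (M). If the second ramification group of Q in the p-extension L/N is trivial then the one of w = Q ∩ M in the Galois extension M/N is trivial. PROOF. Suppose s₀ ≠ 1 in Gal(M/N) with Gp w 3 s₀. For s ≠ 1 let i s be the number with Gp w (i s) s, not Gp w (i s + 1) s (r4_ex; choose; i 1 = 0).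
r4_hilb for N, M, w: ex w (different) = sum over s ≠ 1 of i s. r8_main (N, M, L): ex w (different) = 2 (e - 1), e = ramificationIdx of w over N. The number of the s with Gp w 1 s is e (r6_card), one of them is s = 1, so there are e - 1 elements s ≠ 1 with Gp w 1 s; for these Gp w 2 s (r5_wild: s^(p^j) = 1 because
[M : N] divides p^k: finrank N M divides finrank N L, IsGalois.card_aut_eq_finrank, pow_card_eq_one'; (p : 𝓞 M) in w: p in Q), so i s ≥ 2 (not Gp w (i s + 1) s and Gp decreasing: R10 r10_mono or Ideal.pow_le_pow_right). For s₀: i s₀ ≥ 3, and Gp w 1 s₀. So the sum is at least 2 (e - 1) + 1: contradiction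
(compare with the sum of 2 over the s ≠ 1 with Gp w 1 s: Finset.sum_lt_sum_of_subset or sum_lt_sum; as in the proof of r7_ex in R7.lean). -/
theorem l4 [IsGalois N L] [IsGalois N M] (p : ℕ) (hp : p.Prime) (k : ℕ) (hk : Module.finrank N L = p ^ k) (Q : HeightOneSpectrum (𝓞 L))
    (hpQ : (p : 𝓞 L) ∈ Q.asIdeal) (hG : G2 N Q.asIdeal) (w : HeightOneSpectrum (𝓞 M)) (hw : Q.asIdeal.under (𝓞 M) = w.asIdeal) :
    G2 N w.asIdeal := by
  classical
  intro s₀ hs₀
  by_contra hs1
  have hch : ∀ s : M ≃ₐ[N] M, ∃ n, s ≠ 1 → (Gp w.asIdeal n s ∧ ¬ Gp w.asIdeal (n + 1) s) := by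
    intro s
    by_cases h : s = 1
    · exact ⟨0, fun h' => (h' h).elim⟩
    · obtain ⟨n, hn⟩ := r4_ex w s h
      exact ⟨n, fun _ => hn⟩
  choose i hi using hch
  have h1 := r4_hilb (N := N) w i hi
  have h2 := r8_main (N := N) p hp k hk Q hpQ hG w hw
  rw [h1] at h2
  have hmono : ∀ {m n : ℕ} (s : M ≃ₐ[N] M), m ≤ n → Gp w.asIdeal n s → Gp w.asIdeal m s :=
    fun s h hs x => Ideal.pow_le_pow_right h (hs x)
  have hfin : Module.finrank N M ∣ p ^ k := by
    rw [← hk, ← Module.finrank_mul_finrank N M L]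
    exact Dvd.intro _ rfl
  obtain ⟨k', -, hk'⟩ := (Nat.dvd_prime_pow hp).1 hfin
  have hpw : (p : 𝓞 M) ∈ w.asIdeal := by
    rw [← hw, Ideal.under_def, Ideal.mem_comap, map_natCast]
    exact hpQ
  have hwild : ∀ s : M ≃ₐ[N] M, Gp w.asIdeal 1 s → Gp w.asIdeal 2 s := by
    intro s hs
    apply r5_wild p hp w hpw s k' _ hs
    rw [← hk', ← IsGalois.card_aut_eq_finrank]
    exact pow_card_eq_one'
  have h3 : ∑ s ∈ Finset.univ.erase (1 : M ≃ₐ[N] M), (if Gp w.asIdeal 1 s then 2 else 0) =
      2 * (w.asIdeal.ramificationIdx (𝓞 N) - 1) := by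
    rw [← Finset.sum_filter, Finset.sum_const, smul_eq_mul, mul_comm, Finset.filter_erase,
      Finset.card_erase_of_mem, ← r6_card w, Nat.card_eq_fintype_card, Fintype.card_subtype]
    rw [Finset.mem_filter]
    refine ⟨Finset.mem_univ _, fun x => ?_⟩
    rw [one_smul, sub_self]
    exact Ideal.zero_mem _
  have h4 : ∑ s ∈ Finset.univ.erase (1 : M ≃ₐ[N] M), (if Gp w.asIdeal 1 s then 2 else 0) <
      ∑ s ∈ Finset.univ.erase (1 : M ≃ₐ[N] M), i s := by
    have hlow : ∀ s : M ≃ₐ[N] M, s ≠ 1 → ∀ n, Gp w.asIdeal n s → n ≤ i s := by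
      intro s hs n hn
      by_contra hlt
      push Not at hlt
      exact (hi s hs).2 (hmono s hlt hn)
    refine Finset.sum_lt_sum (fun s hs => ?_) ⟨s₀, Finset.mem_erase.2 ⟨hs1, Finset.mem_univ _⟩, ?_⟩
    · have hs' := Finset.ne_of_mem_erase hs
      by_cases h : Gp w.asIdeal 1 s
      · rw [if_pos h]
        exact hlow s hs' 2 (hwild s h)
      · rw [if_neg h]
        exact Nat.zero_le _
    · have h5 := hlow s₀ hs1 3 hs₀
      split_ifs
      · omega
      · omega
  omega

end SSA
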