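import Mathlib
import Pool.Agent.Lib.SSA.L3
import Pool.Agent.Lib.SSA.L4
import Pool.Agent.Lib.SSU.G2D
import Pool.Agent.Lib.H55P.I3
import Pool.Agent.Lib.H55P.S13

/-! # SSA, chunk L5 (M): the condition on the second ramification groups in the steps of the tower -/

open NumberField IsDedekindDomain WeierstrassCurve

namespace SSA

open H55P (IQ Pt ac Inert Dec Nm inS PExt)
open H16S
open SSR (G2 Gp ex)

variable {F : Type} [Field F] [NumberField F] {p : ℕ} {Ω C : Type} [Field Ω] [Algebra F Ω] [IsAlgClosure F Ω] [NormedField C] [IsUltrametricDist C]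
  {V : ValuationSubring Ω} {i : Ω →+* C}

/-- Chunk L5 (M). The prime ideal of the integers of K below V and its powers. PROOF. w = {x in 𝓞 K | ‖i x‖ < 1} is a prime ideal, not 0 (contains p). For a uniformizer ϖ of K at V (Uf) and x in 𝓞 K, x ≠ 0: the number k with ‖i x‖ = ‖i ϖ‖^k is the w-adic exponent of x: choose u in w, not in w^2
(Ideal.exists_mem_pow_notMem_pow_succ); every x ≠ 0 in w^k, not in w^(k+1), has x b = u^k a with a, b in 𝓞 K not in w (a standard fact: span {x} = w^k J, span {u} = w J', J, J' not in w; pick b in J'^k not in w; x b in w^k J J'^k = u^k (...), a the quotient; or localize at w), so ‖i x‖ = ‖i u‖^k; ‖i u‖ = ‖i ϖ‖ because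
every value of K is an integral power of ‖i u‖ and of ‖i ϖ‖ (both < 1). So ‖i x‖ ≤ ‖i ϖ‖^k implies x in w^k. (See the proof of l2_uf.) -/
theorem l5_mem (h : Ctx F p V i) (K : IntermediateField F Ω) [NumberField K] :
    ∃ w : HeightOneSpectrum (𝓞 K), (∀ x : 𝓞 K, x ∈ w.asIdeal ↔ ‖i ((x : K) : Ω)‖ < 1) ∧ (p : 𝓞 K) ∈ w.asIdeal ∧
      ∀ ϖ, Uf V i K ϖ → ∀ (k : ℕ) (x : 𝓞 K), ‖i ((x : K) : Ω)‖ ≤ ‖i ϖ‖ ^ k → x ∈ w.asIdeal ^ k := by
  obtain ⟨W, hW⟩ := H13S.exists_below K V ⟨(p : K)⁻¹, by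
    have e : (((p : K)⁻¹ : K) : Ω) = (p : Ω)⁻¹ := by
      push_cast
      rfl
    rw [e, h.mem, map_inv₀, norm_inv]
    intro h1
    have h2 := (n1_p h).1
    have h3 := (n1_p h).2
    exact absurd h1 (not_le.2 ((one_lt_inv₀ h3).2 h2))⟩
  have hle : ∀ x y : K, ‖i (x : Ω)‖ ≤ ‖i (y : Ω)‖ ↔ W.valuation K x ≤ W.valuation K y := fun x y => (n1_le h _ _).symm.trans (hW.le x y)
  have hmem : ∀ x : 𝓞 K, x ∈ W.asIdeal ↔ ‖i ((x : K) : Ω)‖ < 1 := by
    intro x
    rw [← n1_lt1 h, hW.lt]
    have h1 : W.valuation K (x : K) = W.intValuation x := W.valuation_of_algebraMap x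
    rw [h1, W.intValuation_lt_one_iff_mem]
  refine ⟨W, hmem, ?_, ?_⟩
  · rw [hmem]
    have e : (((p : 𝓞 K) : K) : Ω) = (p : Ω) := by
      push_cast
      rfl
    rw [e]
    exact (n1_p h).1
  · intro ϖ u k x hx
    have h0 : W.valuation K (⟨ϖ, u.mem⟩ : K) ≠ 0 := (Valuation.ne_zero_iff _).2 (fun h0 => u.ne (congrArg Subtype.val h0))
    have h1 : W.valuation K (⟨ϖ, u.mem⟩ : K) < 1 := (hW.lt (⟨ϖ, u.mem⟩ : K)).1 ((n1_lt1 h _).2 u.lt)
    have h2 : W.valuation K (⟨ϖ, u.mem⟩ : K) ≤ WithZero.exp (-1 : ℤ) := by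
      rw [← WithZero.exp_log h0] at h1 ⊢
      rw [← WithZero.exp_zero, WithZero.exp_lt_exp] at h1
      rw [WithZero.exp_le_exp]
      omega
    have h3 : W.valuation K (x : K) ≤ W.valuation K ((⟨ϖ, u.mem⟩ : K) ^ k) := (hle _ _).1 (by
      have e : (((⟨ϖ, u.mem⟩ : K) ^ k : K) : Ω) = ϖ ^ k := by push_cast; rfl
      rw [e, map_pow, norm_pow]
      exact hx)
    have h4 : W.valuation K (x : K) ≤ WithZero.exp (-(k : ℤ)) := by
      refine h3.trans ?_
      rw [map_pow]
      refine (pow_le_pow_left' h2 k).trans (le_of_eq ?_)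
      rw [← WithZero.exp_nsmul]
      congr 1
      simp
    have h5 : W.valuation K (x : K) = W.intValuation x := W.valuation_of_algebraMap x
    rw [h5] at h4
    exact (W.intValuation_le_pow_iff_mem x k).1 h4

theorem l5_types {M N L : IntermediateField F Ω} [NumberField N] [NumberField L] (hMN : M ≤ N) (hNL : N ≤ L)
    (hG : SSU.G2F p M L) (Q : Ideal (𝓞 L)) (hQ : Q.IsPrime) (hp : (p : 𝓞 L) ∈ Q) :
    letI : Algebra N L := H55P.s13_alg hNL
    G2 N Q := by
  letI : Algebra N L := H55P.s13_alg hNL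
  have hac : IsAlgClosed Ω := IsAlgClosure.isAlgClosed F
  have halg : Algebra.IsAlgebraic F Ω := IsAlgClosure.isAlgebraic
  have halgN : Algebra.IsAlgebraic N Ω := Algebra.IsAlgebraic.tower_top (K := F) N
  have hclN : IsAlgClosure N Ω := ⟨hac, halgN⟩
  have hst : IsScalarTower N L Ω := IsScalarTower.of_algebraMap_eq fun x => rfl
  have hnorm : Normal N Ω := normal_iff.2 fun x =>
    ⟨(Algebra.IsAlgebraic.isAlgebraic x).isIntegral, IsAlgClosed.splits _⟩
  intro s hs
  let σ : Ω ≃ₐ[N] Ω := s.liftNormal Ω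
  have hσ : ∀ x : L, σ (x : Ω) = ((s x : L) : Ω) := fun x => s.liftNormal_commutes Ω x
  have hmem : σ.restrictScalars F ∈ M.fixingSubgroup := by
    rw [IntermediateField.mem_fixingSubgroup_iff]
    intro x hx
    exact σ.commutes (⟨x, hMN hx⟩ : N)
  have h1 := hG Q hQ hp (σ.restrictScalars F) hmem (fun x y hxy => by
    have h2 : σ ((x : L) : Ω) = ((y : L) : Ω) := hxy
    rw [hσ] at h2
    have h3 : s (x : L) = (y : L) := Subtype.ext h2
    have h4 : s • x = y := by
      apply RingOfIntegers.coe_injective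
      exact h3
    rw [← h4]
    exact hs x)
  refine AlgEquiv.ext fun x => Subtype.ext ?_
  have h2 := h1 (x : Ω) x.2
  have h3 : σ (x : Ω) = (x : Ω) := h2
  rw [hσ] at h3
  exact h3

/-- Chunk L5 (M). PROOF. L is finite over F (hL.fin), a number field. l5_mem for L: Q, for K: w; w = Q ∩ K (both are described by V). The algebra N → L: s13_alg (Lib/H55P), the same for N → K, K → L, and the tower (IsScalarTower.of_algebraMap_eq, rfl): copy the beginning of SSU.g2_TRam (Lib/SSU/A4.lean), which shows how to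
get IsGalois N L (s13_galois), IsGalois N K, the degree of L over N = p^k, and of SSU.g2_types (same file: copy it; do not import A4), which gives G2 N Q. l4: G2 N w. The restriction τ of σ to K over N (H55P.s3_restr, or AlgEquiv.restrictNormalHom, or build it with hnorm) is ≠ 1 because σ is not in K.fixingSubgroup.
So not Gp w 3 τ: x in 𝓞 K with τ x - x not in w^3. For a uniformizer ϖ: ‖i (σ x - x)‖ > ‖i ϖ‖^3 (otherwise l5_mem with k = 3). x is in K (fixed by K.fixingSubgroup), integral (‖i x‖ ≤ 1: H13S.in2_le or n1_int-like; h.mem). -/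
theorem l5 (h : Ctx F p V i) {M L N K : IntermediateField F Ω} (hp : p.Prime) (hL : PExt p M L) (hG : SSU.G2F p M L) [NumberField N] [NumberField K]
    (hMN : M ≤ N) (hNK : N ≤ K) (hKL : K ≤ L) (hnorm : ∀ s ∈ N.fixingSubgroup, ∀ x ∈ K, s x ∈ K) {σ : Ω ≃ₐ[F] Ω}
    (hσN : σ ∈ N.fixingSubgroup) (hσK : σ ∉ K.fixingSubgroup) : G2e V i K σ := by
  have hac : IsAlgClosed Ω := IsAlgClosure.isAlgClosed F
  have hal : Algebra.IsAlgebraic F Ω := IsAlgClosure.isAlgebraic
  have hcz : CharZero Ω := charZero_of_injective_algebraMap (FaithfulSMul.algebraMap_injective F Ω)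
  have hLf : FiniteDimensional F L := hL.fin
  have hKf : FiniteDimensional F K := H55P.finDim_of_le hKL
  have hNf : FiniteDimensional F N := H55P.finDim_of_le hNK
  have hMf : FiniteDimensional F M := H55P.finDim_of_le hMN
  have hLn : NumberField L := H16C.FR_numberField L
  letI iNK : Algebra N K := H55P.s13_alg hNK
  letI iKL : Algebra K L := H55P.s13_alg hKL
  letI iNL : Algebra N L := H55P.s13_alg (hNK.trans hKL)
  have t1 : IsScalarTower N K L := IsScalarTower.of_algebraMap_eq fun x => rfl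
  have hNL : N ≤ L := hNK.trans hKL
  have hnormL : ∀ s ∈ N.fixingSubgroup, ∀ x ∈ L, s x ∈ L := fun s hs x hx =>
    hL.norm s (IntermediateField.fixingSubgroup_antitone hMN hs) x hx
  have hgalL : IsGalois N L := H55P.s13_galois N L hNL hnormL
  have hgalK : IsGalois N K := H55P.s13_galois N K hNK hnorm
  -- the degree of L over N
  have hdegL : ∃ k : ℕ, Module.finrank N L = p ^ k := by
    obtain ⟨k, hk⟩ := hL.deg
    obtain ⟨j, hj⟩ := H55P.pext_deg p hp M N L hL hMN hNL
    have hstN : IsScalarTower F N L := IsScalarTower.of_algebraMap_eq fun x => rfl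
    have h1 : Module.finrank F N * Module.finrank N L = Module.finrank F L := Module.finrank_mul_finrank F N L
    have hMN' : Module.finrank F N = Module.finrank F M * p ^ j := by
      letI : Algebra M N := (IntermediateField.inclusion hMN).toRingHom.toAlgebra
      have h2 : IsScalarTower F M N := H55P.alg_tower M N hMN
      rw [← Module.finrank_mul_finrank F M N, hj]
    rw [hk, hMN', mul_assoc] at h1
    have hpos : 0 < Module.finrank F M := Module.finrank_pos
    have h2 : p ^ j * Module.finrank N L = p ^ k := Nat.eq_of_mul_eq_mul_left hpos h1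
    obtain ⟨k', -, hk'⟩ := (Nat.dvd_prime_pow hp).1 (Dvd.intro_left _ h2)
    exact ⟨k', hk'⟩
  obtain ⟨k, hk⟩ := hdegL
  intro ϖ u
  obtain ⟨Q, hQ, hpQ, -⟩ := l5_mem h L
  obtain ⟨w, hw, hpw, hwk⟩ := l5_mem h K
  have hQw : Q.asIdeal.under (𝓞 K) = w.asIdeal := by
    ext x
    rw [hw x]
    show algebraMap (𝓞 K) (𝓞 L) x ∈ Q.asIdeal ↔ _
    rw [hQ]
    exact Iff.rfl
  have hG2 : G2 N Q.asIdeal := l5_types hMN hNL hG Q.asIdeal Q.isPrime hpQ
  have hG2w : G2 N w.asIdeal := l4 p hp k hk Q hpQ hG2 w hQw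
  let e : K ≃+* K :=
    { toFun := fun x => ⟨σ x.1, hnorm σ hσN x.1 x.2⟩
      invFun := fun x => ⟨σ⁻¹ x.1, hnorm σ⁻¹ (inv_mem hσN) x.1 x.2⟩
      left_inv := fun x => Subtype.ext (σ.symm_apply_apply x.1)
      right_inv := fun x => Subtype.ext (σ.apply_symm_apply x.1)
      map_mul' := fun x y => Subtype.ext (map_mul σ x.1 y.1)
      map_add' := fun x y => Subtype.ext (map_add σ x.1 y.1) }
  let t : K ≃ₐ[N] K := AlgEquiv.ofRingEquiv (f := e) (fun x => Subtype.ext (hσN x))
  have ht : t ≠ 1 := by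
    intro h1
    apply hσK
    intro x
    have h3 := DFunLike.congr_fun h1 x
    exact congrArg Subtype.val h3
  have hn : ∃ x : 𝓞 K, t • x - x ∉ w.asIdeal ^ 3 := by
    by_contra hc
    push Not at hc
    exact ht (hG2w t hc)
  obtain ⟨x, hx⟩ := hn
  refine ⟨((x : K) : Ω), ?_, ?_, ?_⟩
  · intro s hs
    exact (IntermediateField.mem_fixingSubgroup_iff K s).1 hs.1 _ (x : K).2
  · rw [← h.mem, ← ValuationSubring.valuation_le_one_iff]
    exact H16C.FR_le_one V (H16C.FR_isIntegral K x)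
  · by_contra hc
    rw [not_lt] at hc
    exact hx (hwk ϖ u 3 (t • x - x) hc)

end SSA
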