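import Mathlib
import Pool.Agent.Lib.SSA.D2
import Pool.Agent.Lib.SSA.L5
import Pool.Agent.Lib.H19B.SB
import Pool.Agent.Lib.H16S.S1
import Pool.Agent.Lib.SSG.LP.Main

/-! # SSA, chunk D3 (M): the Selmer group in p-extensions with trivial second ramification groups at the primes above the inert prime p -/

open NumberField IsDedekindDomain WeierstrassCurve

namespace SSA

open H55P (IQ embF eF LF Per IsHecke Pt ac acR Inert Dec Nm UnitP Ram RamF PExt SelG ShaG PtsG clos Below)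
open H35P (WAB Ker tt GoodW IntW)
open H55K.TQ
open H13R (BadM NoRel)
open H19B (Alt)

variable {F : Type} [Field F] [NumberField F] [IQ F] {W₀ : WeierstrassCurve (𝓞 F)} {Om : ℂ}
    {m : Ideal (𝓞 F)} {ψ : Ideal (𝓞 F) →*₀ 𝓞 F} {p : ℕ}

open Classical in
/-- Chunk D3 (M). The local alternative for W₀ (defined over ℤ). -/
theorem alt_w0A (hH : BaseH F W₀ Om m ψ) (hp : PrimeH F W₀ p) (hin : (Ideal.span {(p : 𝓞 F)}).IsPrime)
    (hZ : ∃ W : WeierstrassCurve ℤ, W₀ = W⁄(𝓞 F))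
    {M L : IntermediateField F (AlgebraicClosure F)} [NumberField M] (hL : PExt p M L) (hG : SSU.G2F p M L) (v : HeightOneSpectrum (𝓞 M))
    (hpv : (p : 𝓞 M) ∈ v.asIdeal) (V : ValuationSubring (AlgebraicClosure F))
    (hV : Below V M v.asIdeal) (N K : IntermediateField F (AlgebraicClosure F)) (hMN : M ≤ N) (hNK : N ≤ K) (hKL : K ≤ L)
    (hdeg : Module.finrank F K = Module.finrank F N * p) (hnorm : ∀ s ∈ N.fixingSubgroup, ∀ x ∈ K, s x ∈ K) :
    Alt (W₀⁄F) p N K V := by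
  obtain ⟨W, rfl⟩ := hZ
  have hLf : FiniteDimensional F L := hL.fin
  have hKf : FiniteDimensional F K := H55P.finDim_of_le hKL
  have hNf : FiniteDimensional F N := H55P.finDim_of_le (hNK.trans hKL)
  have hNn : NumberField N := NumberField.of_module_finite F N
  have hKn : NumberField K := NumberField.of_module_finite F K
  have hfact : Fact p.Prime := ⟨hp.prime⟩
  have hinP : Prime (p : 𝓞 F) := (Ideal.span_singleton_prime (Nat.cast_ne_zero.2 hp.prime.ne_zero)).1 hin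
  obtain ⟨A, B, j, act, hA, hB, dta⟩ := SSG.exists_dtaAB hH hp
  have hVp : V.valuation (p : AlgebraicClosure F) < 1 := by
    have h1 := (hV (p : 𝓞 M)).1 hpv
    have e1 : ((((p : ℕ) : 𝓞 M) : M) : AlgebraicClosure F) = (p : AlgebraicClosure F) := by simp
    rwa [e1] at h1
  have hGV : H55K.GV A B V := dta.good V hVp
  obtain ⟨Θ, hΘ, hΘK⟩ := H19B.short_iso2 (Ω := AlgebraicClosure F) (W⁄(𝓞 F)) hA hB hH.data.ell V hGV.two hGV.three
  obtain ⟨i, hi⟩ := SSG.LP.exists_embC (F := F) V hVp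
  have h : H16S.Ctx F p V i := ⟨hp.prime, hp.five, hinP, hVp, hi⟩
  have hS : H16S.Sup act p := H16S.s1 hH hp hinP hA hB dta
  exact H19B.alt_iso Θ hΘ (alt_step h dta.cma hS hGV hNK hnorm (d2_cyc p hp.prime N K hNK hnorm hdeg)
    (fun σ hσN _ hσK => l5 h hp.prime hL hG hMN hNK hKL hnorm hσN hσK))

open Classical in
/-- Chunk D3 (M). THE TOWER THEOREM. -/
theorem selA (hH : BaseH F W₀ Om m ψ) (hp : PrimeH F W₀ p) (hin : (Ideal.span {(p : 𝓞 F)}).IsPrime)
    (hZ : ∃ W : WeierstrassCurve ℤ, W₀ = W⁄(𝓞 F))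
    {M L K : IntermediateField F (AlgebraicClosure F)}
    [NumberField M] [NumberField K] (hB : BadM W₀ M) (hL : PExt p M L) (hG : SSU.G2F p M L) (hMK : M ≤ K) (hK : K ≤ L)
    (hN : NoRel p W₀ M K) (hS : SelG p W₀ M) : SelG p W₀ K ∧ ShaG p W₀ K ∧ PtsG p W₀ K := by
  have hLf : FiniteDimensional F L := hL.fin
  have hKf : FiniteDimensional F K := H55P.finDim_of_le hK
  have hMf : FiniteDimensional F M := H55P.finDim_of_le hL.le
  have hell : (W₀⁄F).IsElliptic := H55P.gen_ell W₀ hH.data.ell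
  have hC' := H55P.clos_pext p hp.prime M K L hL hMK hK
  have h0 : ∀ T : Pt (W₀⁄F) (AlgebraicClosure F), p • T = 0 →
      (∀ s ∈ M.fixingSubgroup, ac (W₀⁄F) s T = T) → T = 0 := fun T hT hf =>
    H19B.tors_of_sel (W₀⁄F) p hp.prime M hS T hT hf
  have hSK : H55P.SelZero (W₀⁄F) p K := sel_towerA W₀ p hp.prime M (clos M K) hC' h0
    (fun s _ t _ T hT => H55K.NB.comm_tors hH hp.prime s t T hT)
    (fun v hv => by
      have hv' := H55P.clos_ram M K L hMK hK hL.norm v hv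
      by_cases hpv : (p : 𝓞 M) ∈ v.asIdeal
      · right
        intro V hV N K' hMN hNK hKL hdeg hnorm
        exact alt_w0A hH hp hin hZ hL hG v hpv V hV N K' hMN hNK (hKL.trans (H55P.clos_le M K L hK hL.norm)) hdeg hnorm
      · left
        refine ⟨hpv, ?_⟩
        by_cases hΔ : algebraMap (𝓞 F) (𝓞 M) W₀.Δ ∈ v.asIdeal
        · right
          intro V hV T hT hf
          exact H13R.bad_torsR hH hp hL (H55P.clos_le M K L hK hL.norm) hB (V := V) (v := v) (fun a ha => (hV _).1 ha) hΔ T hT hf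
        · left
          exact ⟨hΔ, hN v hv' hΔ⟩) hS K hMK (H55P.le_clos M K)
  exact ⟨hSK, H55P.sha_zero (W₀⁄F) p hp.prime K hSK, H55P.pts_fin (W₀⁄F) p hp.prime K hSK⟩

end SSA
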